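import Pool.Agent.helper53.ORT.Basic

/-!
# Project ort (MP_561ff4_al): Q1 for the orthogonal groups in odd characteristic. Specification

THEOREM. `V` an orthogonal space of dimension at least 7 over `F`, `q = |F|` odd, `S = PΩ(V)`, `r` an odd prime dividing `|S|`, `x ≠ 1` an automorphism of `S` induced
by a semisimilarity. Then `r - 1` conjugates of `x` generate a group of order divisible by `r`. Equality for reflections if `q` is a primitive root modulo `r`.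

Rules: `XX_stmt` is proved in `Pool/Agent/<seat>/ORT/XX.lean`: `import Pool.Agent.helper53.ORT.Spec`, `set_option autoImplicit false`, `namespace Pool.Agent.ORT`,
`open Module Pool.Agent.GS`, `theorem XX (h : YY_stmt) ... : XX_stmt`; hypotheses: any EARLIER statements of this file and any statements `GS.ZZ_stmt` of
Pool/Agent/helper22/GS/Spec.lean (all proved). Take as few as possible. Auxiliary lemmas are prefixed `XX_`. No `convert`, no `congr!`, no double quotes.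

`Basic.lean` has the API: `Om` (commutator subgroup of `SpG B = O(B)`), `Om_le`, `Om_conj`; reflections `rf`: `rf_apply`, `rf_self`, `rf_of_orth`, `rf_sq`, `rf_inv`, `rf_mem`, `rf_conj`,
`rf_conj_sp`, `rf_smul`, `rf_comm`; Siegel elements `sg`: `sg_apply`, `sg_mem`, `sg_conj`, `sg_conj_sp`, `sg_zero`, `sg_add`, `sg_inv`; orthogonal families `Og`, involutions `fl`:
`fl_apply`, `fl_sq`, `fl_inv`, `fl_of_orth`, `fl_self`, `fl_mem`, `fl_conj`, `fl_equiv`, `fl_sum`, `fl_comm`, `fl_unique`, `Og.comp`, `Og.inl`, `Og.inr`, `Og.sum`, `Og.mem`; `actX`;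
generation `Gn`: `Gn.mul`, `Gn.mono`, `Gn.one`, `Gn.conj`, `Gn.comm`, `Gn.pow`, `Gn.of_pow`; `Bk`, `Dr`, `Pl`, `Fx`, `Cm`, `Dat`, `POm`, `IsPGammaO`. From GS: `Sym`, `Sim`, `Lin`, `NSc`, `NS`, `sc`,
`pinv`, `invp`, `bf`, `dt`, `Orth`, `Dv`, `Dup`, `CSet`, `GenDvd`. `N(v) = B v v`, `[y,t] = y t y⁻¹ t⁻¹`. `ringChar F ≠ 2` gives `(2 : F) ≠ 0` by `Ring.two_ne_zero`.
-/

set_option autoImplicit false
set_option linter.unusedVariables false

namespace Pool.Agent.ORT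

open Module Pool.Agent.GS

open scoped BigOperators

noncomputable section

/-! ## A. Orthogonal geometry -/

/-- RO (products of two reflections in `Om`). `N(a) N(b) = s²`, `s ≠ 0`; `b' = (N(a)/s) b` has `N(b') = N(a)`, and `rf B b' = rf B b` (`rf_smul`). `N(a - b') + N(a + b') = 4 N(a) ≠ 0`. If `N(a - b') ≠ 0` then
`g = rf B (a - b')` maps `a` to `b'`, otherwise `g = rf B (a + b')` maps `a` to `-b'`. So `g rf(a) g⁻¹ = rf(± b') = rf(b)` and `rf(a) rf(b) = rf(a) g rf(a)⁻¹ g⁻¹` is a commutator. -/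
def RO_stmt : Prop := ∀ {F V : Type} [Field F] [AddCommGroup V] [Module F V]
  (B : LinearMap.BilinForm F V), ringChar F ≠ 2 → Sym B → ∀ a b : V, B a a ≠ 0 → B b b ≠ 0 →
  IsSquare (B a a * B b b) → rf B a * rf B b ∈ Om B

/-- SGO (Siegel elements in `Om`; uses RO). If `N(d) ≠ 0`: `sg B u d = rf B d * rf B (d + (N(d)/2) u)`, and `N(d + (N(d)/2) u) = N(d)`. If `N(d) = 0`: there is `e ⊥ u` with `N(e) ≠ 0` (if `u = 0` then `sg B u d = 1`; otherwise take `w` with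
`B u w = 1`, `w' = w - (N(w)/2) u`; as `3 ≤ finrank`, there is a vector `≠ 0` orthogonal to `u, w'`, and `B` is nondegenerate on the orthogonal complement of `u, w'`). `N(d - e) + N(d + e) = 2 N(e) ≠ 0`, so one of `N(d - e)`, `N(d + e)` is not zero; replace `e` by `-e` if necessary
and use `sg_add`: `sg B u d = sg B u (d - e) * sg B u e`. -/
def SGO_stmt : Prop := ∀ {F V : Type} [Field F] [AddCommGroup V] [Module F V]
  [FiniteDimensional F V] (B : LinearMap.BilinForm F V), ringChar F ≠ 2 → Sym B →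
  3 ≤ finrank F V → ∀ u d : V, B u u = 0 → B u d = 0 → sg B u d ∈ Om B

/-- FLS (`fl` depends only on the span). Both maps are `-1` on the span `S` and fix the vectors orthogonal to `S`; every `x` is
`∑ (B x (a i) / N(a i)) a i` plus a vector orthogonal to all `a i`, hence to `S` (induction on the span). -/
def FLS_stmt : Prop := ∀ {F V ι κ : Type} [Field F] [AddCommGroup V] [Module F V] [Fintype ι]
  [Fintype κ] (B : LinearMap.BilinForm F V), Sym B → ∀ (a : ι → V) (b : κ → V), Og B a →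
  Og B b → Submodule.span F (Set.range a) = Submodule.span F (Set.range b) → fl B a = fl B b

/-- WA (Witt's theorem with reflections). Induction on `k`. Let `g₀` map `a i` to `a' i` for `i < k` (restrict the families to `Fin k`), `v = g₀ (a k)`, `w = a' k` (last vectors): both are orthogonal to all `a' i`, `i < k`, and `N(v) = N(w) ≠ 0`.
`N(v - w) + N(v + w) = 4 N(v)`. If `N(v - w) ≠ 0`: `g = rf B (v - w) * g₀`. Otherwise `g = rf B w * rf B (v + w) * g₀`. (`rf_of_orth` for the `a' i`.) -/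
def WA_stmt : Prop := ∀ {F V : Type} [Field F] [AddCommGroup V] [Module F V]
  (B : LinearMap.BilinForm F V), ringChar F ≠ 2 → Sym B → ∀ (k : ℕ) (a a' : Fin k → V),
  Og B a → Og B a' → (∀ i, B (a i) (a i) = B (a' i) (a' i)) →
  ∃ g ∈ Subgroup.closure (Set.range (rf B)), ∀ i, g (a i) = a' i

/-- WB (the group generated by the reflections modulo `Om`; uses RO). The set `X` of all `g ∈ O(B)` such that `s * g ∈ Om B` for some `s ∈ {1, rf e₁, rf e₂, rf e₁ rf e₂}` contains all reflections: `rf b` with `N(b) ≠ 0`: `N(b) N(e₁)` or `N(b) N(e₂)` is a square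
(in a finite field the product of two non-squares is a square; one of `N(e₁)`, `N(e₂)` is a square and the other is not), RO. `X` is a subgroup: `Om B` is normal in `O(B)` with commutative quotient (`g h g⁻¹ h⁻¹ ∈ Om B`), `rf e₁` and `rf e₂` commute and are involutions. `Subgroup.closure_induction`. -/
def WB_stmt : Prop := ∀ {F V : Type} [Field F] [Finite F] [AddCommGroup V] [Module F V]
  (B : LinearMap.BilinForm F V), ringChar F ≠ 2 → Sym B → ∀ e₁ e₂ : V, B e₁ e₁ ≠ 0 →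
  B e₂ e₂ ≠ 0 → B e₁ e₂ = 0 → ¬ IsSquare (B e₁ e₁ * B e₂ e₂) →
  ∀ g ∈ Subgroup.closure (Set.range (rf B)),
  ∃ s : Equiv.Perm V, (s = 1 ∨ s = rf B e₁ ∨ s = rf B e₂ ∨ s = rf B e₁ * rf B e₂) ∧ s * g ∈ Om B

/-- URG (vectors of given norm orthogonal to many vectors; uses GS.UN). `A^⊥` for `A = span(a i)` is nondegenerate of dimension `n - k`. Let `x'_j` be the projections of `x_j` to `A^⊥` (`x_j - ∑ (B x_j (a i) / N(a i)) a i`), `U` their span, `dim U ≤ l`. `D = {w ∈ A^⊥ : w ⊥ U}` has dimension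
at least `n - k - l`, its radical is `D ∩ D^⊥ = D ∩ U` (inside `A^⊥`), of dimension at most `l`. A complement `W` of the radical in `D` is nondegenerate of dimension at least `n - k - 2 l ≥ 2`: GS.UN_stmt for the restriction of `B` to `W`. (A vector of `D` is orthogonal to all `a i` and to all `x_j`.) -/
def URG_stmt : Prop := ∀ {F V : Type} [Field F] [Finite F] [AddCommGroup V] [Module F V]
  [FiniteDimensional F V] (B : LinearMap.BilinForm F V), ringChar F ≠ 2 → Sym B →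
  ∀ (k l : ℕ) (a : Fin k → V) (x : Fin l → V), Og B a → k + 2 * l + 2 ≤ finrank F V →
  ∀ c : F, c ≠ 0 → ∃ w, (∀ i, B w (a i) = 0) ∧ (∀ j, B w (x j) = 0) ∧ B w w = c

/-- WT (transitivity of `Om`; uses WA, WB, URG). WA: `g`. URG (for `a'`, `l = 0`): `e₁` orthogonal to all `a' i` with `N(e₁) = 1`; then `e₂` orthogonal to all `a' i` and to `e₁` with `N(e₂)` a non-square: `e₁` is not isotropic, so apply URG to the family `a', e₁` of `k + 1` vectors: this needs `k + 3 ≤ finrank F V`.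
A non-square exists because `F` is finite of odd characteristic (`FiniteField.exists_nonsquare`). WB: `s * g ∈ Om B`, and `s` fixes all `a' i`. -/
def WT_stmt : Prop := ∀ {F V : Type} [Field F] [Finite F] [AddCommGroup V] [Module F V]
  [FiniteDimensional F V] (B : LinearMap.BilinForm F V), ringChar F ≠ 2 → Sym B →
  ∀ (k : ℕ) (a a' : Fin k → V), Og B a → Og B a' → (∀ i, B (a i) (a i) = B (a' i) (a' i)) →
  k + 3 ≤ finrank F V → ∃ g ∈ Om B, ∀ i, g (a i) = a' i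

/-- SGA (the sign of a reflection on the vectors of norm `c`). `X = {v | N(v) = c}` is finite. The support of `rf B a` on `X` is `S = {v ∈ X : B v a ≠ 0}`, and `rf B a` is an involution, so the sign is `(-1)^(|S|/2)`
(for example `Equiv.Perm.sign_of_pow_two_eq_one` or `Equiv.Perm.sign_of_cycleType`). `S` is the union of the orbits of the group `{1, -1, ρ, -ρ}`, `ρ = rf B a`: `-1` and `ρ` have no fixed points in `S`, and `-ρ` fixes `v ∈ S` if and only if `v ∈ F a`.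
So `|S| ≡ |S ∩ F a| mod 4`, and `|S ∩ F a| = #{t : t² N(a) = c}` is 2 if `c N(a)` is a square and 0 otherwise. (`v ↦ -ρ v` is an involution of `S` commuting with `v ↦ -v`; one may also count: `|S|/2 = #S/±`, and `ρ` acts on `S/±` as an involution.) -/
def SGA_stmt : Prop := ∀ {F V : Type} [Field F] [Finite F] [AddCommGroup V] [Module F V]
  [FiniteDimensional F V] (B : LinearMap.BilinForm F V), ringChar F ≠ 2 → ∀ hB : Sym B,
  ∀ (c : F) (a : V), c ≠ 0 → B a a ≠ 0 → ∀ [Fintype {v : V // B v v = c}]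
  [DecidableEq {v : V // B v v = c}],
  (IsSquare (c * B a a) → Equiv.Perm.sign (actX B c ⟨rf B a, rf_mem hB a⟩) = -1) ∧
  (¬ IsSquare (c * B a a) → Equiv.Perm.sign (actX B c ⟨rf B a, rf_mem hB a⟩) = 1)

/-- SNP (discriminants of involutions in `Om`; uses SGA). `sign ∘ actX B c : SpG B → ℤˣ` is a homomorphism to a commutative group, so it is trivial on `Om B`. `fl B a` is the product of the reflections `rf B (a i)` (induction with `fl_sum`, `fl_equiv`, `fl_unique`).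
With `c = 1`: the number of `i` with `N(a i)` a square is even; with `c` a non-square: the number of `i` with `N(a i)` not a square is even (product of two non-squares). So `k` is even and `∏ N(a i)` is a square. -/
def SNP_stmt : Prop := ∀ {F V : Type} [Field F] [Finite F] [AddCommGroup V] [Module F V]
  [FiniteDimensional F V] (B : LinearMap.BilinForm F V), ringChar F ≠ 2 → Sym B →
  ∀ (k : ℕ) (a : Fin k → V), Og B a → fl B a ∈ Om B → Even k ∧ IsSquare (∏ i, B (a i) (a i))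

/-- OBS (orthogonal bases of nondegenerate subspaces, odd characteristic). The restriction of `B` to `H` is symmetric and nondegenerate; `LinearMap.BilinForm.exists_orthogonal_basis` (Mathlib) gives an orthogonal basis; its vectors are nonsingular because `B` is nondegenerate on `H`. -/
def OBS_stmt : Prop := ∀ {F V : Type} [Field F] [AddCommGroup V] [Module F V]
  [FiniteDimensional F V] (B : LinearMap.BilinForm F V), ringChar F ≠ 2 → Sym B →
  ∀ H : Submodule F V, (∀ x ∈ H, (∀ y ∈ H, B x y = 0) → x = 0) →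
  ∃ a : Fin (finrank F H) → V, Og B a ∧ Submodule.span F (Set.range a) = H

/-- IV (involutions of small rank in `Om`; uses SNP, OBS). `H = {v | z v = -v}`, `U = {v | z v = v}`: `V = H + U`, `H ⊥ U` (`B h u = B (z h) (z u) = - B h u`), so `H` is nondegenerate; OBS: `a` with span `H`; `z = fl B a` (both are `-1` on `H` and the identity on the vectors orthogonal to `H`,
which are those of `U`). `finrank H = n - finrank U ≤ 4` (`H ∩ U = 0`, `Fx`), `H ≠ 0` as `z ≠ 1`; SNP: the dimension is even and the discriminant a square. -/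
def IV_stmt : Prop := ∀ {F V : Type} [Field F] [Finite F] [AddCommGroup V] [Module F V]
  [FiniteDimensional F V] (B : LinearMap.BilinForm F V), ringChar F ≠ 2 → Sym B →
  ∀ z ∈ Om B, z * z = 1 → z ≠ 1 → Fx F z →
  ∃ k : ℕ, (k = 2 ∨ k = 4) ∧ ∃ a : Fin k → V, Og B a ∧ IsSquare (∏ i, B (a i) (a i)) ∧ z = fl B a

/-- NRM (families with norms 1; uses GS.DG, FLS). `H = span(a)`, the restriction `b` of `B` to `H` is `GS.Sym`, with the basis `β = (a i)`, `dt b β = ∏ N(a i)` (diagonal matrix). GS.DG_stmt with `c = 1`: a basis `u` of `H` with `Orth b u 1`; `a' i = u i`. The spans agree: FLS. -/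
def NRM_stmt : Prop := ∀ {F V : Type} [Field F] [Finite F] [AddCommGroup V] [Module F V]
  [FiniteDimensional F V] (B : LinearMap.BilinForm F V), ringChar F ≠ 2 → Sym B →
  ∀ (k : ℕ) (a : Fin k → V), Og B a → IsSquare (∏ i, B (a i) (a i)) →
  ∃ a' : Fin k → V, Og B a' ∧ (∀ i, B (a' i) (a' i) = 1) ∧ fl B a' = fl B a

/-- BKB (from an element of even order to blocks; uses IV, NRM, WT). `V` is finite, so `c` has finite order `o`, even by hypothesis; `z = c^(o/2)` is an involution, in `Om B`, `Gn B y 2 z` (`Gn.pow`), `Fx F z`. IV: `z = fl B a`, `k = 2` or `4`. Given any other orthogonal family `b` of `k` vectors with square discriminant: NRM for `a` and `b`,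
WT: `g ∈ Om B` with `g (a' i) = b' i` (`k + 3 ≤ 7`), `fl B b = fl B b' = g (fl B a') g⁻¹` (`fl_conj`), `Gn.conj`. -/
def BKB_stmt : Prop := ∀ {F V : Type} [Field F] [Finite F] [AddCommGroup V] [Module F V]
  [FiniteDimensional F V] (B : LinearMap.BilinForm F V), ringChar F ≠ 2 → Sym B →
  7 ≤ finrank F V → ∀ y c : Equiv.Perm V, c ∈ Om B → Gn B y 2 c →
  (∀ j : ℕ, c ^ j = 1 → Even j) → Fx F c → Bk B y 2 ∨ Bk B y 4

/-- NOM (semisimilarities normalise `Om`). `GS.Sim.conj_mem`: `y` normalises `SpG B` (also `y⁻¹`, a semisimilarity for `ψ⁻¹`), hence its commutator subgroup. -/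
def NOM_stmt : Prop := ∀ {F V : Type} [Field F] [AddCommGroup V] [Module F V]
  (B : LinearMap.BilinForm F V) (y : Equiv.Perm V) (ψ : F ≃+* F) (ν : F), Sim B y ψ ν →
  ∀ g : Equiv.Perm V, g ∈ Om B ↔ y * g * y⁻¹ ∈ Om B

/-- CM2 (uses BKB, NOM). `c = [y,t]` is in `Om B` (`[y,t] = (y t y⁻¹) t⁻¹`, NOM), `Gn.comm`; if `c^j = 1` then `M^j = 1` (the matrix of `c^j` in the basis `e₁, e₂` is `M^j`), so `2 ∣ j`. -/
def CM2_stmt : Prop := ∀ {F V : Type} [Field F] [Finite F] [AddCommGroup V] [Module F V]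
  [FiniteDimensional F V] (B : LinearMap.BilinForm F V), ringChar F ≠ 2 → Sym B →
  7 ≤ finrank F V → ∀ (y : Equiv.Perm V) (ψ : F ≃+* F) (ν : F), Sim B y ψ ν → ∀ T : F, Dr 2 T →
  Cm B y T → Bk B y 2 ∨ Bk B y 4

/-- CM3 (uses NOM). As CM2: `z = [y,t] ∈ Om B`, `Gn.comm`. `NS F r z`: if `z^j` is the scalar `c` then `c² = 1` (`z^j` preserves `B ≠ 0`), `z^(2j) = 1`, `M^(2j) = 1`, `r ∣ 2j`, `r ≠ 2`. -/
def CM3_stmt : Prop := ∀ {F V : Type} [Field F] [AddCommGroup V] [Module F V]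
  (B : LinearMap.BilinForm F V), ringChar F ≠ 2 → Sym B → ∀ (y : Equiv.Perm V) (ψ : F ≃+* F)
  (ν : F), Sim B y ψ ν → ∀ (r : ℕ) (T : F), r.Prime → r ≠ 2 → Dr r T → Cm B y T →
  ∃ z ∈ Om B, Gn B y 2 z ∧ NS F r z

/-! ## B. Traces -/

/-- DM (traces -2 and -1). Trace `-2`, determinant 1: `(M + 1)² = 0`, so `M` has the eigenvalue `-1` (or: `M = -(1 + N)`, `N² = 0`, `M^j = (-1)^j (1 + j N)`), `M^j = 1` implies `(-1)^j = 1`. Trace `-1`: `M² + M + 1 = 0`, `M³ = 1`; if `M^j = 1` with `3 ∤ j` then `M = 1` and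
`2 = -1`, `3 = 0` in `F`. -/
def DM_stmt : Prop := ∀ {F : Type} [Field F], ringChar F ≠ 2 → Dr 2 (-2 : F) ∧
  (ringChar F ≠ 3 → Dr 3 (-1 : F))

/-- EV0 (elements of even order). `q = |F|`. If `κ` is not a square: `α` a generator of `Fˣ` (not a square), `T = α + α⁻¹`, `T - 2 = (α - 1)² / α`, `T ≠ 2`; `α` is an eigenvalue of `M`, so `M^j = 1` implies `α^j = 1`, `q - 1 ∣ j`. If `κ` is a square: `GS.EF_stmt` with `m = 1` (or any quadratic extension `E` of `F`): `g` of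
order `q² - 1` in `E`, `α = g^(q-1)` of order `q + 1`, `w = g^((q-1)/2)`, `w² = α`, `w^(q+1) = -1`, so `(w - w⁻¹)^q = w^q - w^(-q) = w - w⁻¹` lies in `F`: `s`; `T = α + α⁻¹ = 2 + s² ∈ F`, `s ≠ 0`. `α` is an eigenvalue of `M` over `E`, `q + 1 ∣ j`. Compare GS.HA1 and GS.HA2 (files
Pool/Agent/helper22/GS/HA1.lean, Pool/Agent/helper24/GS/HA2.lean) and GS.HP (Pool/Agent/helper53/GS/HP.lean). -/
def EV0_stmt : Prop := ∀ {F : Type} [Field F] [Finite F], ringChar F ≠ 2 → ∀ κ : F, κ ≠ 0 →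
  ∃ T : F, T ≠ 2 ∧ IsSquare ((T - 2) * κ) ∧ Dr 2 T

/-- TRC (uses EV0, GS.H1). For odd `r`: GS.H1_stmt: `σ` with `HD F F r 1 σ`, `σ κ` a square; `T = 2 + σ`. -/
def TRC_stmt : Prop := ∀ {F : Type} [Field F] [Finite F], ringChar F ≠ 2 → ∀ r : ℕ,
  (r = 2 ∨ (r.Prime ∧ r ≠ 2 ∧ Dv (Nat.card F) r 1)) → ∀ κ : F, κ ≠ 0 →
  ∃ T : F, T ≠ 2 ∧ IsSquare ((T - 2) * κ) ∧ Dr r T

/-- TRN (uses TRC). Apply TRC to `-κ`: `T₁`; `T = -T₁`: `(T + 2) κ = (T₁ - 2)(-κ)`. `Dr r T`: if `M` has trace `-T₁` then `-M` has trace `T₁`, determinant 1; `M^j = 1` implies `(-M)^(2j) = 1`, `r ∣ 2j`. `T ≠ 2`: otherwise `T₁ = -2` and the matrix `-1` of order 2 gives `r ∣ 2`. -/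
def TRN_stmt : Prop := ∀ {F : Type} [Field F] [Finite F], ringChar F ≠ 2 → ∀ r : ℕ,
  r.Prime → r ≠ 2 → Dv (Nat.card F) r 1 → ∀ κ : F, κ ≠ 0 →
  ∃ T : F, T ≠ 2 ∧ IsSquare ((T + 2) * κ) ∧ Dr r T

/-! ## C. Linear `y` -/

/-- QZ (quadratic forms with `{S = 0} ⊆ {B = 0}`; uses GS.CW). `R = {v | S v · = 0}`; singular means `S v v = 0`. (1) There is a singular `e ∉ R` (then `f` with `S e f = 1`, `S f f = 0`: correct by a multiple of `e`). If `dim V - dim R ≥ 3`: GS.CW_stmt on a complement of `R`. If `dim V - dim R ≤ 2`: all vectors of `R` are singular, so `B v v = 0` on `R`, `B = 0` on `R`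
(polarisation), `dim R ≤ n/2` (`R ⊆ R^⊥`), so `n - 2 ≤ n/2`, contradiction to `5 ≤ n`. (2) The singular vectors span `V`: for `w` `S`-orthogonal to `e, f` the vector `w + e - (S w w / 2) f` is singular. (3) `R = 0`: for `r ∈ R` and `v` singular, `v + r` is singular, so `0 = B (v+r) (v+r) = 2 B v r`; so `r ⊥ V`. (4) For every singular `e ≠ 0`: `S e x = 0` implies `B e x = 0`:
`f` with `S e f = 1`, `S f f = 0`; `X' = {x | S x e = S x f = 0}` has dimension `n - 2 ≥ 3` and `S` is nondegenerate on it; by CW `X'` contains a singular `e₁ ≠ 0`, and `f₁ ∈ X'` with `S e₁ f₁ = 1`, `S f₁ f₁ = 0`, so `X'` is spanned by its singular vectors (as in (2), inside `X'`). For singular `w ∈ X'`: `e + w` is singular, so `0 = B (e+w) (e+w) = 2 B e w`. So `B e · = 0` on `X'` and at `e`,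
hence on `{x | S e x = 0} = F e + X'`. So `B e x = m(e) S e x` for all `x`. (5) Fix `e, f, X'`, `m = m(e) = B e f = m(f)`. For `w ∈ X'`, `x_w = w + e - (S w w/2) f` is singular, `S x_w f = 1`, `m(x_w) = B x_w f = B f x_w = m S f x_w = m`. So `B x = m S x` for `x = e, f, x_w`, hence for all `x`. -/
def QZ_stmt : Prop := ∀ {F V : Type} [Field F] [Finite F] [AddCommGroup V] [Module F V]
  [FiniteDimensional F V] (B S : LinearMap.BilinForm F V), ringChar F ≠ 2 → Sym B →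
  (∀ u v, S u v = S v u) → 5 ≤ finrank F V → (∀ v, S v v = 0 → B v v = 0) →
  ∃ m : F, ∀ u v, B u v = m * S u v

/-- ZN (uses QZ). `S u v = (B u (y v) + B v (y u))/2 - κ₀ B u v`. If no `a` as in the first alternative exists, QZ applies: `B = m S`, `m ≠ 0`, so `B u (y v) + B v (y u) = 2 μ B u v` with `μ = κ₀ + 1/m`; `B v (y u) = B (y u) v = ν B u (y⁻¹ v)` (`Sim.form`), so
`y v + ν y⁻¹ v = 2 μ v` for all `v`; replace `v` by `y v`. -/
def ZN_stmt : Prop := ∀ {F V : Type} [Field F] [Finite F] [AddCommGroup V] [Module F V]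
  [FiniteDimensional F V] (B : LinearMap.BilinForm F V), ringChar F ≠ 2 → Sym B →
  5 ≤ finrank F V → ∀ (y : Equiv.Perm V) (ν : F), Sim B y (RingEquiv.refl F) ν → ∀ κ₀ : F,
  (∃ a, B a a ≠ 0 ∧ B a (y a) = κ₀ * B a a) ∨ ∃ μ : F, ∀ v, y (y v) = (2 * μ) • y v - ν • v

/-- NQ (uses URG, RO). `A = ⟨a, y a⟩` is a nondegenerate plane: `N(a) N(y a) - B(a, y a)² = N(a)² (ν - κ₀²) ≠ 0` as `4κ₀²/ν ≠ 4`; orthogonal basis `a, y a - κ₀ a`. URG (`k = 2`, `l = 1`, `6 ≤ n`): `b` orthogonal to `a`, `y a`, `y⁻¹ a` with `N(b) = N(a)`. `t = rf a * rf b ∈ Om B` (RO).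
`[y,t] = rf(y a) rf(y b) rf b rf a`. `b` and `y b` are orthogonal to `a`, `y a` (`B (y b) (y a) = ν B b a`, `B (y b) a = ν B b (y⁻¹ a)`). On `A`: `[y,t] a = -a + (2κ₀/ν) y a`, `[y,t](y a) = -2κ₀ a + (4κ₀²/ν - 1) y a`: `M = !![-1, -2κ₀; 2κ₀/ν, 4κ₀²/ν - 1]`.
`Fx`: the vectors orthogonal to `a, y a, b, y b`. -/
def NQ_stmt : Prop := ∀ {F V : Type} [Field F] [Finite F] [AddCommGroup V] [Module F V]
  [FiniteDimensional F V] (B : LinearMap.BilinForm F V), ringChar F ≠ 2 → Sym B →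
  6 ≤ finrank F V → ∀ (y : Equiv.Perm V) (ν : F), Sim B y (RingEquiv.refl F) ν →
  ∀ (a : V) (κ₀ : F), B a a ≠ 0 → B a (y a) = κ₀ * B a a → 4 * κ₀ ^ 2 / ν - 2 ≠ 2 →
  Cm B y (4 * κ₀ ^ 2 / ν - 2)

/-- SE (singular eigenvectors; uses GS.CW). There is a singular vector `e ≠ 0` (CW, `3 ≤ n`) and a singular `f` with `B e f = 1`. Let `y e = λ e`, `y f = λ' f`. For `g ⊥ e, f` put `c = N(g)/2`; `x = e + g - c f` and `x' = e - g - c f` are singular: `y x = α x`, `y x' = α' x'`. Adding: `2λ e - 2cλ' f = (α + α') e + (α - α') g - c (α + α') f`. If `g ≠ 0` (so `e, f, g` are independent):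
`α = α'`, `λ = α`, and then `y g = α g = λ g`, `c λ' = c λ`. There is `g` with `N(g) ≠ 0` (the orthogonal complement of `e, f` is nondegenerate and not zero), so `λ' = λ`. So `y = λ` on `e, f` and on their orthogonal complement. -/
def SE_stmt : Prop := ∀ {F V : Type} [Field F] [Finite F] [AddCommGroup V] [Module F V]
  [FiniteDimensional F V] (B : LinearMap.BilinForm F V), ringChar F ≠ 2 → Sym B →
  3 ≤ finrank F V → ∀ y : Equiv.Perm V, Lin F y → (∀ v, B v v = 0 → ∃ c : F, y v = c • v) →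
  ∃ c : F, ∀ v, y v = c • v

/-- QD (quadratic `y`; uses SE, SGO). SE: `v` singular with `y v ∉ F v`. `B v (y v) = μ N(v) = 0`: from `y² = 2μ y - ν` one gets `y x + ν y⁻¹ x = 2μ x`, and `B x (ν y⁻¹ x) = B (y x) x`. `v, y v` are independent, so there is `w₀` with `B v w₀ = 1`, `B (y v) w₀ = 0` (GS.DU-like: `B v ·`, `B (y v) ·` are independent functionals), and
`w = w₀ - (N(w₀)/2) v` is singular with the same products. `w' = y⁻¹ w`: `B v w' = ν⁻¹ B (y v) w = 0`, `B (y v) w' = ν⁻¹ B (y (y v)) w = -1`. `t = sg B v (κ • w') ∈ Om B`. `[y,t] = sg B (y v) (ν⁻¹ κ w) * sg B v (-κ w')` (`sg_conj`, `sg_inv`). On `⟨v, y v⟩`: `v ↦ v - (κ/ν) y v`, `y v ↦ -κ v + (1 + κ²/ν) y v`: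
`M = !![1, -κ; -κ/ν, 1 + κ²/ν]`. `Fx`: the vectors orthogonal to `v, w', y v, w`. -/
def QD_stmt : Prop := ∀ {F V : Type} [Field F] [Finite F] [AddCommGroup V] [Module F V]
  [FiniteDimensional F V] (B : LinearMap.BilinForm F V), ringChar F ≠ 2 → Sym B →
  3 ≤ finrank F V → ∀ (y : Equiv.Perm V) (ν : F), Sim B y (RingEquiv.refl F) ν → NSc F y →
  ∀ μ : F, (∀ v, y (y v) = (2 * μ) • y v - ν • v) → ∀ κ : F, Cm B y (2 + κ ^ 2 / ν)

/-- LIN (linear `y`; uses ZN, NQ, QD, TRC, TRN, DM). (a) ZN with `κ₀ = 0`: in the first case NQ: `T = -2` (DM; `-2 ≠ 2`); in the second case TRC with `r = 2`, `κ = ν`: `(T - 2) ν = s²`, QD with `κ = s`: `2 + s²/ν = T`. (b) `r` odd: TRN with `κ = ν`: `(T + 2) ν = s²`, `κ₀ = s/2`: `4κ₀²/ν - 2 = T ≠ 2`: ZN, NQ or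
(second case) TRC for `r`, QD. -/
def LIN_stmt : Prop := ∀ {F V : Type} [Field F] [Finite F] [AddCommGroup V] [Module F V]
  [FiniteDimensional F V] (B : LinearMap.BilinForm F V), ringChar F ≠ 2 → Sym B →
  6 ≤ finrank F V → ∀ (y : Equiv.Perm V) (ν : F), Sim B y (RingEquiv.refl F) ν → NSc F y →
  (∃ T : F, Dr 2 T ∧ Cm B y T) ∧ ∀ r : ℕ, r.Prime → r ≠ 2 → Dv (Nat.card F) r 1 →
    ∃ T : F, Dr r T ∧ Cm B y T

/-! ## D. Semilinear `y` -/

/-- DSO1 (one more hyperbolic pair of fixed vectors; uses GS.DS2). For fixed `u, v`: `B u v = ν ψ(B u v)`; as `μ = ν ψ(μ) ≠ 0`, `B u v / μ` is in the fixed field `F₀` of `ψ`. `P w = w - ∑ (B w f_i / μ) e_i - ∑ (B w e_i / μ) f_i` maps fixed vectors to fixed vectors, orthogonal to all `e_i, f_i`, and by DS2 the `P w`, `w` fixed, span the orthogonal complement `W`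
of the `e_i, f_i`, of dimension `n - 2k ≥ 3`, on which `B` is nondegenerate. Choose fixed `g₁ ∈ W` with `N(g₁) ≠ 0` (otherwise `B` vanishes on the fixed vectors of `W` by polarisation, hence on `W`); in the same way (projection orthogonal to `g₁`, again fixed vectors span the complement) fixed `g₂ ∈ W`, `g₂ ⊥ g₁`, `N(g₂) ≠ 0`, and fixed `g₃ ∈ W`, `g₃ ⊥ g₁, g₂`, `N(g₃) ≠ 0`. `γ_i = N(g_i)/μ ∈ F₀`.
`γ₁ x² + γ₂ y² = -γ₃` has a solution in the finite field `F₀` (`FiniteField.exists_root_sum_quadratic`; `F₀` as a subfield `{x | ψ x = x}`). `e' = x g₁ + y g₂ + g₃` is fixed, singular, `≠ 0`. There is a fixed `u ∈ W` with `b = B e' u ≠ 0`; `f' = (μ/b) (u - (N(u)/(2b)) e')`. -/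
def DSO1_stmt : Prop := ∀ {F V : Type} [Field F] [Finite F] [AddCommGroup V] [Module F V]
  [FiniteDimensional F V] (B : LinearMap.BilinForm F V), ringChar F ≠ 2 → Sym B →
  ∀ (y : Equiv.Perm V) (ψ : F ≃+* F) (ν : F), Sim B y ψ ν →
  ∀ l : ℕ, l.Prime → (∃ x, ψ x ≠ x) → (∀ x, (⇑ψ)^[l] x = x) → (∀ v, (y ^ l) v = v) →
  ∀ (μ : F), μ ≠ 0 → μ = ν * ψ μ → ∀ (k : ℕ) (e f : Fin k → V), 2 * k + 3 ≤ finrank F V →
  (∀ i, y (e i) = e i ∧ y (f i) = f i) →
  (∀ i j, B (e i) (e j) = 0 ∧ B (f i) (f j) = 0 ∧ B (e i) (f j) = if i = j then μ else 0) →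
  ∃ e' f' : V, y e' = e' ∧ y f' = f' ∧ B e' e' = 0 ∧ B f' f' = 0 ∧ B e' f' = μ ∧
    ∀ i, B e' (e i) = 0 ∧ B e' (f i) = 0 ∧ B f' (e i) = 0 ∧ B f' (f i) = 0

/-- DSO (uses GS.DS1, GS.DS2, DSO1). As GS.DSB (Pool/Agent/helper22/GS/DSB.lean): `ψ κ = κ` (`y` commutes with `y^l`; `V ≠ 0`), `ψ^l = 1`. DS1: `lam`; `y' = lam • y` is a semisimilarity with `y'^l = 1`, multiplier `lam² ν`. The fixed vectors of `y'` span `V` (DS2), so there are fixed `u, v` with `μ = B u v ≠ 0`; DSO1 for `k = 0`, `k = 1` (`5 ≤ n`). -/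
def DSO_stmt : Prop := ∀ {F V : Type} [Field F] [Finite F] [AddCommGroup V] [Module F V]
  [FiniteDimensional F V] (B : LinearMap.BilinForm F V), ringChar F ≠ 2 → Sym B →
  5 ≤ finrank F V → ∀ (y : Equiv.Perm V) (ψ : F ≃+* F) (ν : F), Sim B y ψ ν →
  (∃ x, ψ x ≠ x) → ∀ (l : ℕ) (κ : F), l.Prime → κ ≠ 0 → (∀ v, (y ^ l) v = κ • v) →
  Dup B y ∧ ∀ x, (⇑ψ)^[l] x = x

/-- SMT (commutators of a semilinear `y`; uses SGO). `Dup`: `lam`, `μ`, `e_i`, `f_i`. `v = e_0 + κ e_1`, `v₁ = e_0 + ψ(κ) e_1 = lam y v`, `x = X/μ`, `d = x (f_1 - κ f_0)`: `B v d = 0`. `t = sg B v d ∈ Om B`. `[y,t] = sg B (y v) (ν⁻¹ y d) * sg B v (-d)`. From `B (y e_i) (y f_i) = ν ψ(μ)`: `lam⁻² μ = ν ψ(μ)`. On `⟨v, v₁⟩ ⊆ ⟨e_0, e_1⟩`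
(totally singular, so `sg B u d z = z - B z d u` for `z, u ∈ ⟨e_0,e_1⟩`): with `ω = ψ(κ) - κ`: `sg B v (-d)`: `v ↦ v`, `v₁ ↦ v₁ + X ω v`; `sg B (y v) (ν⁻¹ y d)`: `v ↦ v + ψ(X) ω v₁`, `v₁ ↦ v₁`. So `[y,t] v = v + ψ(X)ω v₁`, `[y,t] v₁ = Xω v + (1 + X ψ(X) ω²) v₁`. -/
def SMT_stmt : Prop := ∀ {F V : Type} [Field F] [AddCommGroup V] [Module F V]
  [FiniteDimensional F V] (B : LinearMap.BilinForm F V), ringChar F ≠ 2 → Sym B →
  3 ≤ finrank F V → ∀ (y : Equiv.Perm V) (ψ : F ≃+* F) (ν : F), Sim B y ψ ν → Dup B y →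
  ∀ κ X : F, ψ κ ≠ κ → Cm B y (2 + X * ψ X * (ψ κ - κ) ^ 2)

/-- NRX (values of `X ψ(X)`; uses GS.DS1). (a) `l = 2`, `ψ w = w`, `w ≠ 0`: GS.DS1_stmt for `w⁻¹`: `w⁻¹ lam ψ(lam) = 1`. (b) `l` odd: `X = ∏_{i<l} ψ^i(s)^((-1)^i)`, i.e. the product of the `ψ^i(s)`, `i` even, divided by the product of the `ψ^i(s)`, `i` odd; `ψ(X) = ∏_{1≤i≤l} ψ^i(s)^((-1)^(i-1))` and `X ψ(X) = s ψ^l(s) = s²`. (By induction on `j`: with
`X_j = ∏_{i<j} ψ^i(s)^((-1)^i)`: `X_j ψ(X_j) = s ψ^j(s)^(-(-1)^j)`.) -/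
def NRX_stmt : Prop := ∀ {F : Type} [Field F] [Finite F] (ψ : F ≃+* F) (l : ℕ), l.Prime →
  (∃ x, ψ x ≠ x) → (∀ x, (⇑ψ)^[l] x = x) →
  (l = 2 → ∀ w : F, w ≠ 0 → ψ w = w → ∃ X, X * ψ X = w) ∧
  (l ≠ 2 → ∀ s : F, s ≠ 0 → ∃ X, X * ψ X = s ^ 2)

/-- SLR (semilinear `y`; uses DSO, SMT, NRX, TRC, DM). `κ₁` with `ω = ψ(κ₁) - κ₁ ≠ 0`. `l = 2`: `ψ(ω) = -ω`, `ω²` is fixed by `ψ`. For `T = -2` (`w = -4`) and for `T = -1` (`w = -3`), NRX for `w/ω²` (fixed by `ψ`: integers are): `X ψ(X) ω² = w`, `2 + w = T`; DM. `l` odd: TRC with `κ = 1`, `r = 2` or `r = 3` (`3 ∣ q² - 1` if `p ≠ 3`): `T - 2 = s²`; NRX for `s/ω`; SMT. -/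
def SLR_stmt : Prop := ∀ {F V : Type} [Field F] [Finite F] [AddCommGroup V] [Module F V]
  [FiniteDimensional F V] (B : LinearMap.BilinForm F V), ringChar F ≠ 2 → Sym B →
  5 ≤ finrank F V → ∀ (y : Equiv.Perm V) (ψ : F ≃+* F) (ν : F), Sim B y ψ ν →
  (∃ x, ψ x ≠ x) → ∀ (l : ℕ) (κ : F), l.Prime → κ ≠ 0 → (∀ v, (y ^ l) v = κ • v) →
  (∃ T : F, Dr 2 T ∧ Cm B y T) ∧ (ringChar F ≠ 3 → ∃ T : F, Dr 3 T ∧ Cm B y T)

/-! ## E. The prime `r = p` -/

/-- `(z - 1)³ = 0`. -/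
def UP {V : Type} [AddCommGroup V] (z : Equiv.Perm V) : Prop :=
  ∀ v, z (z (z v)) - (z (z v) + z (z v) + z (z v)) + (z v + z v + z v) - v = 0

/-- UPN. `p = ringChar F`. `z` is linear; `N = z - 1` as a linear map, `N³ = 0`; `p ≥ 3`, so `z^p = 1 + N^p = 1` (`add_pow_char` in the commutative ring `F[N]`, or binomial theorem with `N³ = 0`: `z^j = 1 + j N + (j(j-1)/2) N²`, so `z^p = 1`). If `z^j` is the scalar `c`: `z` has an eigenvector with eigenvalue 1 (`N` is nilpotent and `V ≠ 0`), `c = 1`, `z^j = 1`; `z ≠ 1`,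
`z^p = 1`, `p` prime: `p ∣ j`. -/
def UPN_stmt : Prop := ∀ {F V : Type} [Field F] [Finite F] [AddCommGroup V] [Module F V],
  ringChar F ≠ 2 → ∀ z : Equiv.Perm V, Lin F z → z ≠ 1 → UP z → NS F (ringChar F) z

/-- CW2 (Chevalley - Warning for two forms). With a basis, `∑ B(e_i,e_j) X_i X_j` and `∑ S(e_i,e_j) X_i X_j` have total degree `≤ 2 + 2 < 5 ≤ n`: `char_dvd_card_solutions_of_add_lt` (Mathlib); the number of common zeros is divisible by `p` and not zero. Compare Pool/Agent/helper51/GS/CW.lean. -/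
def CW2_stmt : Prop := ∀ {F V : Type} [Field F] [Finite F] [AddCommGroup V] [Module F V]
  [FiniteDimensional F V] (B S : LinearMap.BilinForm F V), 5 ≤ finrank F V →
  ∃ u, u ≠ 0 ∧ B u u = 0 ∧ S u u = 0

/-- SGU (Siegel elements). With `z = sg B u d`: `(z - 1) x = B x u d - B x d u - (N(d)/2) B x u u`, `(z-1) d = -N(d) u`, `(z-1) u = 0`, so `(z-1)³ = 0`. `z ≠ 1`: the functionals `B · u`, `B · d` are independent (`u ≠ 0`, `d ∉ F u`, `B` nondegenerate), so there is `x` with `B x u = 0`, `B x d ≠ 0`, `z x = x - B x d u`. -/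
def SGU_stmt : Prop := ∀ {F V : Type} [Field F] [AddCommGroup V] [Module F V]
  [FiniteDimensional F V] (B : LinearMap.BilinForm F V), ringChar F ≠ 2 → Sym B →
  ∀ u d : V, B u u = 0 → B u d = 0 → u ≠ 0 → (∀ c : F, d ≠ c • u) →
  sg B u d ≠ 1 ∧ UP (sg B u d)

/-- PPA (singular eigenvector; uses SGO, SGU). For `d ⊥ u`: `[y, sg B u d] = sg B u (c ν⁻¹ y d) * sg B u (-d) = sg B u (c ν⁻¹ y d - d)` (`sg_conj`; `sg B (c u) d' = sg B u (c d')`). First case: for some `d ⊥ u` the vector `d' = c ν⁻¹ y d - d` (orthogonal to `u`) is not in `F u`: `z = sg B u d'`, SGU, `Gn.comm`. Second case: `c ν⁻¹ y d = d + φ(d) u` for all `d ⊥ u`. Take `d ⊥ u` with `N(d) ≠ 0` (`3 ≤ n`): `c² ν⁻² ν N(d) = N(d)`, so `ν = c²`. `y₁ = c⁻¹ y ∈ O(B)`, `y₁ u = u`, `y₁ d = d + φ(d) u` on `u^⊥`, `φ` linear with `φ(u) = 0`, so there is `d₀ ⊥ u` with `φ(d) = -B d d₀` on `u^⊥`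
(extend `φ` to a functional on `V`, `B` nondegenerate: `φ = -B · d₀`; `φ(u) = 0` gives `d₀ ⊥ u`). `g = (sg B u d₀)⁻¹ y₁ ∈ O(B)` is the identity on `u^⊥`, so `g = 1` (`g w - w ⊥ u^⊥`, so `g w = w + b u`, and `N(g w) = N(w)` gives `b B w u = 0`). So `z = y₁ = sg B u d₀ ∈ Om B`, `d₀ ∉ F u` (otherwise `z = 1` and `y` is a scalar; `sg B u (c u) = 1`), SGU, `Gn B y 2 z` (`z` is a scalar times `y`: take
`g = 1`). -/
def PPA_stmt : Prop := ∀ {F V : Type} [Field F] [AddCommGroup V] [Module F V]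
  [FiniteDimensional F V] (B : LinearMap.BilinForm F V), ringChar F ≠ 2 → Sym B →
  3 ≤ finrank F V → ∀ (y : Equiv.Perm V) (ν : F), Sim B y (RingEquiv.refl F) ν → NSc F y →
  ∀ (u : V) (c : F), u ≠ 0 → B u u = 0 → y u = c • u → ∃ z ∈ Om B, Gn B y 2 z ∧ z ≠ 1 ∧ UP z

/-- PPB (singular `u ⊥ y u`, not an eigenvector; uses SGO, SGU). `L = ⟨u, y u⟩` is a totally singular plane. (1) `y (y u) ∉ L`: `t = sg B u (y u)`. `[y,t] = sg B (y u) (ν⁻¹ y y u) * sg B u (-(y u)) = sg B (y u) (ν⁻¹ y y u + u)`, since `sg B u (-w) = sg B w u` for orthogonal singular `u, w`. SGU: `ν⁻¹ y y u + u ∉ F (y u)`.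
(2) `y (y u) ∈ L`: `y` maps `L` onto `L`, hence `L^⊥` onto `L^⊥`. `dim L^⊥ = n - 2 ≥ 3`: `d ∈ L^⊥`, `d ∉ L`. `t = sg B u d`, `z = [y,t] = sg B (y u) (ν⁻¹ y d) * sg B u (-d)`: `z` is the identity on `L`, and `z x = x + B x d u - ν⁻¹ B x (y d) y u` for `x ∈ L^⊥`, and `z v - v ∈ L^⊥` for all `v` (`B (z v - v) x = 0` for `x ∈ L`), so `UP z`. `z ≠ 1`: there is
`x ∈ L^⊥` with `B x d ≠ 0` (`d ∉ L = L^⊥⊥`), and `u, y u` are independent. -/
def PPB_stmt : Prop := ∀ {F V : Type} [Field F] [AddCommGroup V] [Module F V]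
  [FiniteDimensional F V] (B : LinearMap.BilinForm F V), ringChar F ≠ 2 → Sym B →
  5 ≤ finrank F V → ∀ (y : Equiv.Perm V) (ν : F), Sim B y (RingEquiv.refl F) ν →
  ∀ u : V, B u u = 0 → B u (y u) = 0 → (∀ c : F, y u ≠ c • u) →
  ∃ z ∈ Om B, Gn B y 2 z ∧ z ≠ 1 ∧ UP z

/-- PPS (semilinear; uses SGO, SGU). `Dup`: `t = sg B e_0 (x e_1)`, `[y,t] = sg B e_0 ((ψ(μ x)/μ - x) e_1)` (as in SMT; `y e_i = lam⁻¹ e_i`, `lam⁻² ν⁻¹ = ψ(μ)/μ`, `sg B (c u) d = sg B u (c d)`). Choose `x` with `ψ(μ x) ≠ μ x`. -/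
def PPS_stmt : Prop := ∀ {F V : Type} [Field F] [AddCommGroup V] [Module F V]
  [FiniteDimensional F V] (B : LinearMap.BilinForm F V), ringChar F ≠ 2 → Sym B →
  3 ≤ finrank F V → ∀ (y : Equiv.Perm V) (ψ : F ≃+* F) (ν : F), Sim B y ψ ν →
  (∃ x, ψ x ≠ x) → Dup B y → ∃ z ∈ Om B, Gn B y 2 z ∧ z ≠ 1 ∧ UP z

/-! ## F. Elements of order `r` -/

/-- KDA (a minimal subspace). `k` linear isometry, `k^r = 1`. `T` = `k` as a linear map, `S = k + k⁻¹`. `Q = q^(r-1)`, `k^Q = k` (`r ∣ q^(r-1) - 1`, Fermat). Every polynomial `x = p(S)` (in the commutative algebra `F[T]`, characteristic `p`) satisfies `x^Q = x` (`x ↦ x^Q` is an `F`-linear ring homomorphism of `F[T]` fixing `T`); `x` is self-adjoint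
(`B (S u) v = B u (S v)`) and commutes with `k`. Consider all subspaces `U ≠ 0` with `k U ⊆ U`, `U ∩ ker(k - 1) = 0` and `B` nondegenerate on `U`. `im(k - 1)` is one: `V = ker(k-1) ⊕ im(k-1)`, an orthogonal sum (`r ≠ 0` in `F`: `r v = ∑ k^i v + (r v - ∑ k^i v)`; compare GS.PD, Pool/Agent/helper75/GS/PD.lean). Take `U` of minimal dimension. For `x = p(S)` the restriction to `U`:
`U = ker x ⊕ im x` (`x² u = 0` implies `x^Q u = 0 = x u`; dimensions), orthogonal (`B (x u) w = B u (x w)`), so `ker x` is nondegenerate and `k`-invariant, hence `0` or `U` by minimality. -/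
def KDA_stmt : Prop := ∀ {F V : Type} [Field F] [Finite F] [AddCommGroup V] [Module F V]
  [FiniteDimensional F V] (B : LinearMap.BilinForm F V), ringChar F ≠ 2 → Sym B →
  ∀ k ∈ SpG B, ∀ r : ℕ, r.Prime → r ≠ 2 → (r : F) ≠ 0 → k ^ r = 1 → k ≠ 1 →
  ∃ (S : V →ₗ[F] V) (U : Submodule F V), (∀ v, S v = k v + k⁻¹ v) ∧ U ≠ ⊥ ∧ (∀ u ∈ U, k u ∈ U) ∧
    (∀ u ∈ U, k u = u → u = 0) ∧ (∀ u ∈ U, (∀ w ∈ U, B u w = 0) → u = 0) ∧
    ∀ p : Polynomial F, (∀ u ∈ U, Polynomial.aeval S p u = 0) ∨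
      (∀ u ∈ U, Polynomial.aeval S p u = 0 → u = 0)

/-- KDP (the polynomials of `ζ + ζ⁻¹`). `G 0 = 1`, `G 1 = X + 1`, `G (n+2) = X * G (n+1) - G n`. In any ring with commuting inverse elements `k, k'`: `G n (k + k') = 1 + ∑_{i=1}^n (k^i + k'^i)`. If `k^(2n+1) = 1` and `U` is as in KDA then `∑_{i<2n+1} k^i u = 0` for `u ∈ U` (the sum is fixed by `k` and in `U`), so `G n (S) u = 0` (multiply by `k^n`). `G n` is monic of degree `n`. -/
def KDP_stmt : Prop := ∃ G : ∀ (F : Type) [Field F], ℕ → Polynomial F,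
  (∀ (F : Type) [Field F], G F 3 = Polynomial.X ^ 3 + Polynomial.X ^ 2 - 2 * Polynomial.X - 1) ∧
  (∀ (F : Type) [Field F] (n : ℕ), (G F n).Monic ∧ (G F n).natDegree = n) ∧
  ∀ {F V : Type} [Field F] [AddCommGroup V] [Module F V] (k : Equiv.Perm V), Lin F k →
    ∀ (S : V →ₗ[F] V) (U : Submodule F V) (n : ℕ), (∀ v, S v = k v + k⁻¹ v) → k ^ (2 * n + 1) = 1 →
    (∀ u ∈ U, k u ∈ U) → (∀ u ∈ U, k u = u → u = 0) → ∀ u ∈ U, Polynomial.aeval S (G F n) u = 0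

/-- KDT (a trace, `q = 3`, `r = 7`). `K` has 27 elements, `tr(x) = x + x³ + x⁹` (`FiniteField.algebraMap_trace_eq_sum_pow`); with `σ³ = -σ² + 2σ + 1 = 1 - σ - σ²` (`3 = 0`) compute: `σ² + σ⁶ + σ^18 = -1`. (Or: the minimal polynomial of `σ` is `X³ + X² - 2X - 1`, of degree 3 = `finrank`; it has no root in `F`, whose elements are `0, 1, -1`; trace of multiplication by `σ²` in the basis
`1, σ, σ²`.) `σ` is not in `F` as the polynomial has no root in `F`, which is not needed for the computation with `x + x³ + x⁹`. -/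
def KDT_stmt : Prop := ∀ {F K : Type} [Field F] [Field K] [Algebra F K] [Finite F] [Finite K]
  [FiniteDimensional F K], Nat.card F = 3 → finrank F K = 3 → ∀ σ : K,
  σ ^ 3 + σ ^ 2 - 2 * σ - 1 = 0 → Algebra.trace F K (σ ^ 2) ≠ 0

/-- KDB (the field `K`; uses KDA, KDP, KDT). `U`, `S` as in KDA. `v ∈ U` with `N(v) ≠ 0` (`B` is nondegenerate on `U ≠ 0`, characteristic not 2). The polynomials `p` with `p(S) v = 0` form an ideal `(f)`; by KDA `p(S) v = 0` implies `p(S) = 0` on `U` or (`v = 0`, impossible), so `(f)` is prime: if `(p p')(S) v = 0` then `p(S) = 0` on `U` or `p(S)` is injective on `U`. So `f` is irreducible,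
`K = AdjoinRoot f`, `σ` = root, `j(p(σ)) = p(S) v` (`Submodule.liftQ` or `Ideal.Quotient`; linear, injective). `B (j c) (j c') = B v (j (c c')) = ℓ(c c')` (`S` self-adjoint), `ℓ` a functional with `ℓ(1) ≠ 0`, so `ℓ(x) = tr(β x)` with `β ≠ 0` (nondegeneracy of the trace form, GS.BF). For `x = p(S) v`, `x' = p'(S) v` and
`w = p(S) p'(S) v` (`k` commutes with `S`): `B (k x) x' = B (k w) v` (`p'(S)` self-adjoint), `B (k w) v = B w (k⁻¹ v) = B v (k⁻¹ w) = B (k⁻¹ w) v`, so `2 B (k x) x' = B (S w) v`, i.e. `2 B (k (j c)) (j c') = ℓ(σ c c') = tr(β σ c c')`.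
`fx`: from KDA (`j c ∈ U`). `σ ≠ 0`: otherwise `k v = -k⁻¹ v`, `k² v = -v`, `k⁴ v = v`, with `k^r v = v`, `r` odd: `k v = v`. `σ² ≠ 4`: `σ = 2 ε`, `ε = ±1`: `(k - ε)² v = 0`, so `k^i v = ε^i v + i ε^(i-1) (k v - ε v)`; `i = r`: `v = ε v + r ε^(r-1) (k v - ε v)` (`r` odd, `ε^r = ε`). If `ε = 1`: `r (k v - v) = 0`, `k v = v`. If `ε = -1`: `2 v = r (k v + v)`; apply `k + 1`:
`2 (k v + v) = 0`, so `k v = -v`, `2v = 0`. Degree: `G ((r-1)/2)` annihilates `v`, so `f` divides it: `finrank F K = natDegree f ≤ (r-1)/2`. If `r = 7`, `finrank F K = 3`, `q = 3`: `G 3 (σ) = 0`, KDT. `K` is finite (finite-dimensional over the finite field `F`). -/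
def KDB_stmt : Prop := ∀ {F V : Type} [Field F] [Finite F] [AddCommGroup V] [Module F V]
  [FiniteDimensional F V] (B : LinearMap.BilinForm F V), ringChar F ≠ 2 → Sym B →
  ∀ k ∈ SpG B, ∀ r : ℕ, r.Prime → r ≠ 2 → (r : F) ≠ 0 → k ^ r = 1 → k ≠ 1 →
  ∃ (K : Type) (_ : Field K) (_ : Algebra F K) (_ : Finite K) (_ : FiniteDimensional F K)
    (β σ : K) (j : K →ₗ[F] V), Dat B k β σ j ∧ 2 * finrank F K + 1 ≤ r ∧
    (r = 7 → Nat.card F = 3 → finrank F K = 3 → Algebra.trace F K (σ ^ 2) ≠ 0)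

/-- KJ (changing `β`). `x, y ∈ K` with `x² + σ x y + y² = β'/β`: `(x + σy/2)² + ((4 - σ²)/4) y² = β'/β` is solvable in the finite field `K` (`FiniteField.exists_root_sum_quadratic`, `σ² ≠ 4`). `j' c = j (x c) + k (j (y c))`. `s`: clear. `f1`: `B(j'c,j'c') = tr(β(x² + σxy + y²)cc')`. `f2`: use `k k (j c) = k (j (σ c)) - j c`:
`2B(k j'c, j'c') = tr(βσx²cc') + 2tr(βxycc') + [tr(βσ²xycc') - 2tr(βxycc')] + tr(βσy²cc')`. `fx`: `k j'c = j'c` means `k (j P) = j Q` with `P = xc + σyc - yc`, `Q = xc + yc`. Then `f2`: `σ P = 2 Q` (`2B(k jP, j c') = 2B(jQ, jc')` for all `c'`, the trace form is nondegenerate), and `jP = k⁻¹ jQ`: `2B(jP, jc') = 2B(jQ, k jc') = tr(βσQc')` gives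
`σ Q = 2 P`; so `σ² P = 4 P`, `P = 0`, `Q = 0` (`2Q = σP`), `(σ - 2) y c = 0`, so `y c = 0`, `x c = 0`, `c = 0` as `(x, y) ≠ 0`. -/
def KJ_stmt : Prop := ∀ {F V K : Type} [Field F] [Finite F] [AddCommGroup V] [Module F V]
  [Field K] [Algebra F K] [Finite K] [FiniteDimensional F K] (B : LinearMap.BilinForm F V),
  ringChar F ≠ 2 → Sym B → ∀ k ∈ SpG B, ∀ (β σ : K) (j : K →ₗ[F] V), Dat B k β σ j →
  ∀ β' : K, β' ≠ 0 → ∃ j' : K →ₗ[F] V, Dat B k β' σ j' ∧ ∀ c, ∃ c₁ c₂, j' c = j c₁ + k (j c₂)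

/-- D1 (orthogonal bases with any norms; uses KJ, GS.DG, GS.DD, GS.BF). `β₀` a basis of `K` indexed by `ι`. `bf F K α x y = tr(α⁻¹ x y)`. If `dt (bf F K 1) β₀ * ∏ c i` is a square take `α = 1`, otherwise `α` a non-square of `K`: by GS.DD_stmt `dt (bf F K α) β₀ * ∏ c i` is a square (product of two non-squares of the finite field `F`). GS.DG_stmt: a basis `u` with
`Orth (bf F K α) u c`. KJ with `β' = α⁻¹`. -/
def D1_stmt : Prop := ∀ {F V K ι : Type} [Field F] [Finite F] [AddCommGroup V] [Module F V]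
  [Field K] [Algebra F K] [Finite K] [FiniteDimensional F K] [Fintype ι] [DecidableEq ι]
  (B : LinearMap.BilinForm F V), ringChar F ≠ 2 → Sym B → ∀ k ∈ SpG B, ∀ (β σ : K)
  (j : K →ₗ[F] V), Dat B k β σ j → Fintype.card ι = finrank F K → ∀ c : ι → F,
  (∀ i, c i ≠ 0) → ∃ (β' : K) (j' : K →ₗ[F] V) (u : Basis ι F K), Dat B k β' σ j' ∧
    (∀ x, ∃ c₁ c₂, j' x = j c₁ + k (j c₂)) ∧
    ∀ i i', B (j' (u i)) (j' (u i')) = if i = i' then c i else 0

/-- KH (the element `h = [k, fl]`). `a i = j (u i)` is an orthogonal family spanning `j(K)`. For `x = j c`: `fl B a (k⁻¹ x) = -k x`: the projection of `k⁻¹ x` to `j(K)` is `j(σc)/2` (`2 B (k⁻¹ jc) (jc') = 2 B (jc) (k jc') = tr(βσcc') = B (j(σc)) (jc')`), so `fl B a (k⁻¹ x) = k⁻¹ x - j(σ c) = -k x`. In the same way `fl B a (k x) = -k⁻¹ x`.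
`h x = k fl k⁻¹ (-x) = k k x`, `h (k x) = k k (k x)`. (For `h (k x)`: `fl(kx) = -k⁻¹x`, `k⁻¹(-k⁻¹x) = -k⁻¹k⁻¹x`, `k⁻¹k⁻¹ x = k⁻¹ j(σc) - x`, `fl` of it: `-k j(σc) + x = -k k x`; so `h(kx) = k k k x`.) By induction `h^i x = k^(2i) x` for `x ∈ j(K)` and for `x ∈ k j(K)` (`j(K) + k j(K)` is invariant under `k`). Suppose `h^i` is the scalar `λ` and `r ∤ i`:
`k^(2i) x = λ x` on `j(K)`, `2i` is invertible modulo `r`, so `k x = λ' x` for all `x ∈ j(K)` (a power). Then `f2`: `tr(βσcc') = 2λ' tr(βcc')`, so `σ = 2λ'` (in `K`), and `k⁻¹x = λ'⁻¹x`, `σ = λ' + λ'⁻¹`, so `λ' = λ'⁻¹`, `σ² = 4`, a contradiction. -/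
def KH_stmt : Prop := ∀ {F V K ι : Type} [Field F] [Finite F] [AddCommGroup V] [Module F V]
  [Field K] [Algebra F K] [Finite K] [FiniteDimensional F K] [Fintype ι] [DecidableEq ι]
  (B : LinearMap.BilinForm F V), ringChar F ≠ 2 → Sym B → ∀ k ∈ SpG B, ∀ r : ℕ, r.Prime →
  r ≠ 2 → k ^ r = 1 → ∀ (β σ : K) (j : K →ₗ[F] V), Dat B k β σ j →
  ∀ (u : Basis ι F K) (c : ι → F), (∀ i, c i ≠ 0) →
  (∀ i i', B (j (u i)) (j (u i')) = if i = i' then c i else 0) →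
  Og B (fun i => j (u i)) ∧ NS F r (k * fl B (fun i => j (u i)) * k⁻¹ * fl B (fun i => j (u i)))

/-- KX (the subspace `W = j(K) + k j(K)`; uses OBS). `(c, c') ↦ j c + k (j c')` is injective and `W` is nondegenerate: if `j P + k (j Q)` is orthogonal to `W` then (with `j c`) `2P + σQ = 0` and (with `k (j c)`) `σP + 2Q = 0`, so `(4 - σ²) Q = 0`, `Q = 0`, `P = 0`. So `2 finrank F K ≤ finrank F V` and `W^⊥` is nondegenerate of dimension `n - 2 finrank F K ≥ τ`: OBS, take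
`τ` of the vectors. -/
def KX_stmt : Prop := ∀ {F V K : Type} [Field F] [Finite F] [AddCommGroup V] [Module F V]
  [FiniteDimensional F V] [Field K] [Algebra F K] [Finite K] [FiniteDimensional F K]
  (B : LinearMap.BilinForm F V), ringChar F ≠ 2 → Sym B → ∀ k ∈ SpG B, ∀ (β σ : K)
  (j : K →ₗ[F] V), Dat B k β σ j → 2 * finrank F K ≤ finrank F V ∧
  ∀ τ : ℕ, 2 * finrank F K + τ ≤ finrank F V → ∃ X : Fin τ → V, Og B X ∧
    ∀ c i, B (j c) (X i) = 0 ∧ B (k (j c)) (X i) = 0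

/-! ## G. Blocks -/

/-- E1 (many blocks). Induction on `l`: `Fin (l+1) × Fin s ≃ (Fin l × Fin s) ⊕ Fin s` (first or last block); `fl_equiv`, `fl_sum`, `Gn.mul`; a block has discriminant 1. `l = 0`: `fl` of the empty family is `1`. -/
def E1_stmt : Prop := ∀ {F V : Type} [Field F] [AddCommGroup V] [Module F V]
  (B : LinearMap.BilinForm F V), Sym B → ∀ (y : Equiv.Perm V) (s l : ℕ), Bk B y s →
  ∀ a : Fin l × Fin s → V, Og B a → (∀ i, B (a i) (a i) = 1) → Gn B y (2 * l) (fl B a)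

/-- E2 (the middle block). `kR i = k (R i)`. `k fl(R) k⁻¹ fl(R) = fl(kR) fl(R) = (fl(kR) fl(X)) (fl(X) fl(R)) = fl(kR ⊕ X) fl(R ⊕ X)` (`fl_sum`, `fl_comm`, `fl_sq`), and both families have `s` vectors (`finSumFinEquiv`) and the square discriminant `∏ N(R i) ∏ N(X i)`. -/
def E2_stmt : Prop := ∀ {F V : Type} [Field F] [AddCommGroup V] [Module F V]
  (B : LinearMap.BilinForm F V), Sym B → ∀ (y k : Equiv.Perm V), k ∈ SpG B → ∀ (ρ τ : ℕ),
  Bk B y (ρ + τ) → ∀ (R : Fin ρ → V) (X : Fin τ → V), Og B R → Og B X →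
  (∀ i i', B (R i) (X i') = 0) → (∀ i i', B (k (R i)) (X i') = 0) →
  IsSquare ((∏ i, B (R i) (R i)) * ∏ i, B (X i) (X i)) → Gn B y 4 (k * fl B R * k⁻¹ * fl B R)

/-- E3 (the vectors `X`; uses URG). Induction on `τ`: the vectors `X` are chosen one after the other orthogonal to `R`, to the previous ones and to `k (R i)`, with norm 1; the step from `τ` to `τ + 1` uses URG for the family `R, X` of `ρ + τ` vectors and the `ρ` vectors `k (R i)`. -/
def E3_stmt : Prop := ∀ {F V : Type} [Field F] [Finite F] [AddCommGroup V] [Module F V]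
  [FiniteDimensional F V] (B : LinearMap.BilinForm F V), ringChar F ≠ 2 → Sym B →
  ∀ (ρ τ : ℕ) (R x : Fin ρ → V), Og B R → 3 * ρ + τ + 1 ≤ finrank F V →
  ∃ X : Fin τ → V, Og B X ∧ (∀ i, B (X i) (X i) = 1) ∧ (∀ i i', B (R i) (X i') = 0) ∧
    ∀ i i', B (x i) (X i') = 0

/-- E4 (blocks of four; uses D1, KH, KX, E1, E2, E3). `m = finrank F K`, `m = 4 l + ρ`, `ρ ≤ 3`. `ρ = 0`: D1 for `ι = Fin l × Fin 4`, `c = 1`; `a i = j' (u i)`, `h = k fl(a) k⁻¹ fl(a)`; `k fl(a) k⁻¹ = fl(k a)` (`fl_conj`), E1 twice: `Gn B y (2l + 2l)`, `4l ≤ 2m`. `ρ ≥ 1`, `l ≥ 1`: D1 for `ι = (Fin l × Fin 4) ⊕ Fin ρ`, `c = 1`; `a = (A₀, R)`;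
`h = (k fl(A₀) k⁻¹) (k fl(R) k⁻¹ fl(R)) fl(A₀)` (`fl_sum`, `fl_comm`); E3 with `x = k R`, `τ = 4 - ρ`: `3ρ + τ + 1 = 2ρ + 5 ≤ 8l + 2ρ ≤ n` (KX); E2: `Gn B y (2l + 4 + 2l)`, `4l + 4 ≤ 2(4l + ρ)`. `l = 0` (`m = ρ ∈ {1,2,3}`): KX with `τ = 4 - m` (`2m + τ = m + 4 ≤ 7`): `X`; D1 for `ι = Fin m`, norms `c = (1, .., 1, ∏ N(X i))`: `j' c ∈ j(K) + k j(K)` and
`k j'(c) = k j c₁ + k k j c₂ = k (j (c₁ + σ c₂)) - j c₂` are orthogonal to `X`; E2: `Gn B y 4`, and `4 ≤ 2m` if `m ≥ 2`. In all cases `NS F r h` by KH, and `h ∈ Om B` is the commutator of `k` and `fl(a)` (`fl_inv`). -/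
def E4_stmt : Prop := ∀ {F V K : Type} [Field F] [Finite F] [AddCommGroup V] [Module F V]
  [FiniteDimensional F V] [Field K] [Algebra F K] [Finite K] [FiniteDimensional F K]
  (B : LinearMap.BilinForm F V), ringChar F ≠ 2 → Sym B → 7 ≤ finrank F V → ∀ k ∈ SpG B,
  ∀ r : ℕ, r.Prime → r ≠ 2 → k ^ r = 1 → ∀ (β σ : K) (j : K →ₗ[F] V), Dat B k β σ j →
  ∀ y : Equiv.Perm V, Bk B y 4 →
  ∃ h ∈ Om B, Gn B y (max 4 (2 * finrank F K)) h ∧ NS F r h

/-- E5 (blocks of two, not tight; uses D1, KH, E1, E2, E3). `m = 2l`: D1 for `ι = Fin l × Fin 2`, `c = 1`: `Gn B y (2l + 2l)`. `m = 2l + 1`: D1 for `ι = (Fin l × Fin 2) ⊕ Fin 1`, `c = 1`; as in E4, E3 with `ρ = 1`, `τ = 1` (`5 ≤ n`), E2: `Gn B y (2l + 4 + 2l)`, `4l + 4 = 2m + 2`. -/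
def E5_stmt : Prop := ∀ {F V K : Type} [Field F] [Finite F] [AddCommGroup V] [Module F V]
  [FiniteDimensional F V] [Field K] [Algebra F K] [Finite K] [FiniteDimensional F K]
  (B : LinearMap.BilinForm F V), ringChar F ≠ 2 → Sym B → 7 ≤ finrank F V → ∀ k ∈ SpG B,
  ∀ r : ℕ, r.Prime → r ≠ 2 → k ^ r = 1 → ∀ (β σ : K) (j : K →ₗ[F] V), Dat B k β σ j →
  ∀ y : Equiv.Perm V, Bk B y 2 →
  (Even (finrank F K) → ∃ h ∈ Om B, Gn B y (2 * finrank F K) h ∧ NS F r h) ∧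
  ∃ h ∈ Om B, Gn B y (2 * finrank F K + 2) h ∧ NS F r h

/-- E7 (two elements of `K`; uses GS.Q5, GS.Q3, GS.HW, GS.UN, GS.BF). `α = β⁻¹`, `bf F K α x y = tr(β x y)`, `δ = dt (bf F K α) β₀ ≠ 0`. (1) `c₁` with `tr(β c₁²) = δ` and, if `m = 3`, `tr(β σ² c₁²) ≠ 0`: if `m ≥ 4`: GS.UN. If `m = 3` and `q ≥ 5`: GS.Q5 with `σ²`; if `q = 3`: GS.Q3 with `σ²` (`dt * δ = δ²` is a square, the trace of `σ²` is not zero by hypothesis).
(`q` odd: `q = 3` or `q ≥ 5`.) (2) GS.HW with its `β := β⁻¹`, `u := β σ c₁`, `δ' := δ`: `w` with `tr(β σ c₁ w) = 0`, `bf F K β⁻¹ w w = tr(β w²) = δ`; its condition for `m = 3`: `tr(β⁻¹ u²) = tr(β σ² c₁²) ≠ 0`. `c₂ = w`. -/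
def E7_stmt : Prop := ∀ {F K ι : Type} [Field F] [Finite F] [Field K] [Algebra F K] [Finite K]
  [FiniteDimensional F K] [Fintype ι] [DecidableEq ι] (β₀ : Basis ι F K), ringChar F ≠ 2 →
  3 ≤ finrank F K → ∀ β σ : K, β ≠ 0 → σ ≠ 0 →
  (Nat.card F = 3 → finrank F K = 3 → Algebra.trace F K (σ ^ 2) ≠ 0) →
  ∃ (δ : F) (c₁ c₂ : K), δ ≠ 0 ∧ IsSquare (dt (bf F K β⁻¹) β₀ * δ) ∧
    Algebra.trace F K (β * c₁ ^ 2) = δ ∧ Algebra.trace F K (β * c₂ ^ 2) = δ ∧
    Algebra.trace F K (β * σ * c₁ * c₂) = 0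

/-- E6 (blocks of two, tight; uses E7, E1, KH, FLS, GS.DG, GS.BF). `m = 2l + 1`, `l ≥ 1`, `ι = (Fin l × Fin 2) ⊕ Fin 1`, norms `c = (1, .., 1; δ)`: `dt * ∏ c = dt * δ` is a square. GS.DG_stmt (second part) for `i₀ = inr 0`: bases `u` with `u i₀ = c₁` and `w` with `w i₀ = c₂`, `Orth (bf F K β⁻¹) · c`. `a i = j (u i)`, `b i = j (w i)`: `Og`, the same span `j(K)`,
so `fl B a = fl B b` (FLS). `h = k fl(a) k⁻¹ fl(a) = (k fl(a) k⁻¹) fl(b)`, `fl(a) = fl(a₀) rf(j c₁)`, `fl(b) = rf(j c₂) fl(b₀)`; `h = fl(k a₀) · rf(k j c₁) rf(j c₂) · fl(b₀)`. `2B (k j c₁) (j c₂) = tr(β σ c₁ c₂) = 0`, so `rf(k j c₁) rf(j c₂) = fl ![k j c₁, j c₂]` with discriminant `δ²`: one block. `Gn B y (2l + 2 + 2l)`. KH for `NS`. -/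
def E6_stmt : Prop := ∀ {F V K : Type} [Field F] [Finite F] [AddCommGroup V] [Module F V]
  [FiniteDimensional F V] [Field K] [Algebra F K] [Finite K] [FiniteDimensional F K]
  (B : LinearMap.BilinForm F V), ringChar F ≠ 2 → Sym B → ∀ k ∈ SpG B,
  ∀ r : ℕ, r.Prime → r ≠ 2 → k ^ r = 1 → ∀ (β σ : K) (j : K →ₗ[F] V), Dat B k β σ j →
  (Nat.card F = 3 → finrank F K = 3 → Algebra.trace F K (σ ^ 2) ≠ 0) →
  3 ≤ finrank F K → Odd (finrank F K) → ∀ y : Equiv.Perm V, Bk B y 2 →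
  ∃ h ∈ Om B, Gn B y (2 * finrank F K) h ∧ NS F r h

/-- EB (uses KDB, E4, E5, E6). `r ≥ 5`. KDB: `m = finrank F K`, `2m + 1 ≤ r`. `Bk B y 4`: E4, `max 4 (2m) ≤ r - 1`. `Bk B y 2`: `m` even: E5 first part. `m` odd and `2m + 3 ≤ r`: E5 second part. `m` odd and `2m + 1 = r` (`2m + 2 = r` is impossible for odd `r`; `m ≥ 3` as `r ≥ 5` and `m` odd): E6; its condition: `m = 3` implies `r = 7`. -/
def EB_stmt : Prop := ∀ {F V : Type} [Field F] [Finite F] [AddCommGroup V] [Module F V]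
  [FiniteDimensional F V] (B : LinearMap.BilinForm F V), ringChar F ≠ 2 → Sym B →
  7 ≤ finrank F V → ∀ k ∈ SpG B, ∀ r : ℕ, r.Prime → 5 ≤ r → (r : F) ≠ 0 → k ^ r = 1 → k ≠ 1 →
  ∀ y : Equiv.Perm V, (Bk B y 2 ∨ Bk B y 4) → ∃ h ∈ Om B, Gn B y (r - 1) h ∧ NS F r h

/-! ## H. Conclusions -/

/-- PRP (`r = p`; uses CW2, PPA, PPB, PPS, DSO, UPN). `p = ringChar F`, `r ∣ q` means `r = p`. Linear `y`: CW2 for `B` and `S u v = B u (y v)`: `u ≠ 0` singular with `B u (y u) = 0`; PPA or PPB. Semilinear: DSO, PPS. UPN; `2 ≤ r - 1`, `Gn.mono`. -/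
def PRP_stmt : Prop := ∀ {F V : Type} [Field F] [Finite F] [AddCommGroup V] [Module F V]
  [FiniteDimensional F V] (B : LinearMap.BilinForm F V), ringChar F ≠ 2 → Sym B →
  5 ≤ finrank F V → ∀ (y : Equiv.Perm V) (ψ : F ≃+* F) (ν : F), Sim B y ψ ν → NSc F y →
  ∀ (l : ℕ) (κ : F), l.Prime → κ ≠ 0 → (∀ v, (y ^ l) v = κ • v) →
  ∀ r : ℕ, r.Prime → r ≠ 2 → r ∣ Nat.card F → ∃ z ∈ Om B, Gn B y (r - 1) z ∧ NS F r z

/-- MNP (`y` of prime order modulo scalars; uses PRP, LIN, SLR, CM2, CM3, EB). `r ∣ q`: PRP. Otherwise `(r : F) ≠ 0`. `ψ = 1`: LIN; `ψ ≠ 1`: SLR. `r = 3`: `Dv q 3 1` as `3 ∤ q`; CM3. `r ≥ 5`: CM2 gives `Bk B y 2 ∨ Bk B y 4`; EB with the element `k` of the hypothesis (`Om_le`). -/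
def MNP_stmt : Prop := ∀ {F V : Type} [Field F] [Finite F] [AddCommGroup V] [Module F V]
  [FiniteDimensional F V] (B : LinearMap.BilinForm F V), ringChar F ≠ 2 → Sym B →
  7 ≤ finrank F V → ∀ (y : Equiv.Perm V) (ψ : F ≃+* F) (ν : F), Sim B y ψ ν → NSc F y →
  ∀ (l : ℕ) (κ : F), l.Prime → κ ≠ 0 → (∀ v, (y ^ l) v = κ • v) →
  ∀ r : ℕ, r.Prime → r ≠ 2 → (∃ k ∈ Om B, k ≠ 1 ∧ k ^ r = 1) →
  ∃ z ∈ Om B, Gn B y (r - 1) z ∧ NS F r z

/-- MN (uses MNP, GS.PO). GS.PO_stmt: `y^j` is a semisimilarity, not a scalar, `(y^j)^l = κ`, `l` prime. MNP for `y^j`, `Gn.of_pow`. -/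
def MN_stmt : Prop := ∀ {F V : Type} [Field F] [Finite F] [AddCommGroup V] [Module F V]
  [FiniteDimensional F V] (B : LinearMap.BilinForm F V), ringChar F ≠ 2 → Sym B →
  7 ≤ finrank F V → ∀ (y : Equiv.Perm V) (ψ : F ≃+* F) (ν : F), Sim B y ψ ν → NSc F y →
  ∀ r : ℕ, r.Prime → r ≠ 2 → (∃ k ∈ Om B, k ≠ 1 ∧ k ^ r = 1) →
  ∃ z ∈ Om B, Gn B y (r - 1) z ∧ NS F r z

/-- CNO (centralisers; uses RO, URG, OBS). `z ∈ O(B)`. Let `a ⊥ b` be nonsingular with `N(a) N(b)` a square, `g = rf a * rf b ∈ Om B`. `z g z⁻¹ = rf(z a) rf(z b)` is `c` times `g`. Both fix pointwise a subspace of codimension 2, so (as `n ≥ 5 > 4`) there is a vector `≠ 0` fixed by both: `c = 1`. `z g z⁻¹ = g`: the `-1`-eigenspaces `⟨z a, z b⟩` and `⟨a, b⟩` are equal.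
For given nonsingular `a`: URG: `b` orthogonal to `a` with `N(b) = N(a)`, and `b'` orthogonal to `a` and `b` with `N(b') = N(a)`: `z a ∈ ⟨a,b⟩ ∩ ⟨a,b'⟩ = F a`. So every nonsingular vector is an eigenvector. Let `a ⊥ b` be nonsingular, `z a = α a`, `z b = α' b`. If `N(a) + N(b) ≠ 0` then `a + b` is an eigenvector, so `α = α'`. If `N(b) = -N(a) = -s`: URG: `e₁, e₂` orthogonal to `a, b` and to each
other with norm `s`; `α = α(e₁) = α(e₂)` by the first case; `e₁ + e₂ + b` has norm `s ≠ 0`, so it is an eigenvector: `α = α'`. So all vectors of an orthogonal basis of `V` (OBS with `H = ⊤`) have the same eigenvalue. -/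
def CNO_stmt : Prop := ∀ {F V : Type} [Field F] [Finite F] [AddCommGroup V] [Module F V]
  [FiniteDimensional F V] (B : LinearMap.BilinForm F V), ringChar F ≠ 2 → Sym B →
  6 ≤ finrank F V → ∀ z ∈ SpG B, (∀ g ∈ Om B, ∃ c : F, ∀ v, (z * g * z⁻¹ * g⁻¹) v = c • v) →
  ∃ c : F, ∀ v, z v = c • v

/-- FG (from `Gn`, `NS` to `GenDvd`; uses CNO, NOM, GS.AD). As GS.F1 (Pool/Agent/helper72/GS/F1.lean), with `φ = (Om B).subtype`. GS.AD_stmt: `N`, `Ad`. `Om B ≤ N`, `y ∈ N` (NOM), the scalars are in `N`, `Ad y = x`, `Ad g = MulAut.conj (mk g)` for `g ∈ Om B`, `Ad (sc c) = 1`. Let `Gn B y k z`: `Ad z` is in the closure `H` of the conjugates `conj(mk g_i) x conj(mk g_i)⁻¹`. Let `N' = Nat.card H`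
(`POm B` is finite): `(Ad z)^N' = 1`: for `g ∈ Om B` the commutator `[z^N', g]` is in the centre of `Om B`, whose elements are scalars (CNO: a central element `s` satisfies `s g s⁻¹ g⁻¹ = 1`), so `z^N'` is a scalar by CNO, and `NS` gives `r ∣ N'`. First part: if `y v = c • v` for all `v` then `y` commutes with `Om B`, so `x = 1`. -/
def FG_stmt : Prop := ∀ {F V : Type} [Field F] [Finite F] [AddCommGroup V] [Module F V]
  [FiniteDimensional F V] (B : LinearMap.BilinForm F V), ringChar F ≠ 2 → Sym B →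
  6 ≤ finrank F V → ∀ x : MulAut (POm B), ∀ (y : Equiv.Perm V) (ψ : F ≃+* F) (ν : F),
  Sim B y ψ ν → (∀ g h : Om B, (h : Equiv.Perm V) = y * g * y⁻¹ →
    x (QuotientGroup.mk g) = QuotientGroup.mk h) →
  (x ≠ 1 → NSc F y) ∧ ∀ (r k : ℕ) (z : Equiv.Perm V), z ∈ Om B → Gn B y k z → NS F r z →
    GenDvd r k x

/-- PRO (Cauchy). `r ∣ |Om B / centre|` implies `r ∣ |Om B|` (`Om B` is finite, Lagrange); `exists_prime_orderOf_dvd_card'`. -/
def PRO_stmt : Prop := ∀ {F V : Type} [Field F] [Finite F] [AddCommGroup V] [Module F V]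
  [FiniteDimensional F V] (B : LinearMap.BilinForm F V) (r : ℕ), r.Prime →
  r ∣ Nat.card (POm B) → ∃ k ∈ Om B, k ≠ 1 ∧ k ^ r = 1

/-- LRB (lower bound for reflections). `g_i rf(a) g_i⁻¹ = rf(g_i a)`; the group `H` generated by them fixes all vectors orthogonal to the `k` vectors `g_i a`. Cauchy: `g ∈ H` of order `r`. `U = ker(g - 1)` has codimension at most `k`, `V = U ⊕ W`, `W = im(g - 1)` (`r ≠ 0` in `F`: as in GS.PD, Pool/Agent/helper75/GS/PD.lean), `i = dim W ≤ k`, `i ≥ 1`, `g` permutes the nonzero vectors of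
`W` without fixed points, so `r ∣ q^i - 1`. -/
def LRB_stmt : Prop := ∀ {F V : Type} [Field F] [Finite F] [AddCommGroup V] [Module F V]
  [FiniteDimensional F V] (B : LinearMap.BilinForm F V), ringChar F ≠ 2 → Sym B →
  ∀ (a : V) (k : ℕ) (g : Fin k → Equiv.Perm V), (∀ i, g i ∈ SpG B) → ∀ r : ℕ, r.Prime →
  ¬ r ∣ Nat.card F → r ∣ Nat.card (Subgroup.closure (Set.range fun i => g i * rf B a * (g i)⁻¹)) →
  ∃ i, 1 ≤ i ∧ i ≤ k ∧ r ∣ Nat.card F ^ i - 1

/-- FRO (the automorphism of a reflection; uses CNO, NOM, LRB, URG, GS.AD). `a` with `N(a) = 1` (URG). `x` = the automorphism induced by `y = rf B a` (GS.AD or directly: conjugation by `y` is an automorphism of `Om B`, `QuotientGroup.congr`). `x² = 1`; `x ≠ 1`: otherwise `y g y⁻¹ g⁻¹` is in the centre of `Om B` for all `g ∈ Om B`, whose elements are scalars (CNO), and `y` would be a scalar by CNO;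
but `y a = -a` and `y` fixes a vector `≠ 0`. Lower bound: `GenDvd r k x`: conjugates by `MulAut.conj (mk g_i)`; `Ad` (defined on the normaliser `N` of `Om B`) maps the subgroup generated by the `g_i y g_i⁻¹` onto the group in `GenDvd`, so `r` divides the order of the former (finite group): LRB. -/
def FRO_stmt : Prop := ∀ {F V : Type} [Field F] [Finite F] [AddCommGroup V] [Module F V]
  [FiniteDimensional F V] (B : LinearMap.BilinForm F V), ringChar F ≠ 2 → Sym B →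
  6 ≤ finrank F V → ∃ x : MulAut (POm B), IsPGammaO B x ∧ orderOf x = 2 ∧
  ∀ k r : ℕ, r.Prime → ¬ r ∣ Nat.card F → GenDvd r k x →
    ∃ i, 1 ≤ i ∧ i ≤ k ∧ r ∣ Nat.card F ^ i - 1

/-- FIN (the result; uses MN, FG, PRO, FRO, GS.BE). First part: FG, PRO, MN: `GenDvd r (r-1) x`; GS.BE: `r - 1 ∈ CSet r x`; take the least element. Second part: the `x` of FRO; `r - 1 ∈ CSet r x` by the first part, and `k ∈ CSet r x` implies `r ∣ q^i - 1` for some `1 ≤ i ≤ k`, so `k ≥ r - 1` by the hypothesis. -/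
def FIN_stmt : Prop := ∀ {F V : Type} [Field F] [Finite F] [AddCommGroup V] [Module F V]
  [FiniteDimensional F V] (B : LinearMap.BilinForm F V), ringChar F ≠ 2 → Sym B →
  7 ≤ finrank F V →
  (∀ x : MulAut (POm B), IsPGammaO B x → x ≠ 1 → ∀ r : ℕ, r.Prime → r ≠ 2 →
    r ∣ Nat.card (POm B) → ∃ β, IsLeast (CSet r x) β ∧ β ≤ r - 1) ∧
  ∃ x : MulAut (POm B), IsPGammaO B x ∧ orderOf x = 2 ∧
    ∀ r : ℕ, r.Prime → r ≠ 2 → r ∣ Nat.card (POm B) → ¬ r ∣ Nat.card F →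
      (∀ i, 1 ≤ i → i < r - 1 → ¬ r ∣ Nat.card F ^ i - 1) → IsLeast (CSet r x) (r - 1)

end

end Pool.Agent.ORT
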