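import Pool.Agent.helper53.ORT.Spec

set_option autoImplicit false

namespace Pool.Agent.ORT

open Module Pool.Agent.GS

theorem BKB (iv : IV_stmt) (nrm : NRM_stmt) (wt : WT_stmt) : BKB_stmt := by
  intro F V _ _ _ _ _ B h2 hB h7 y c hc hgn hev hfx
  haveI : Finite V := Module.finite_of_finite F
  have hcs := Om_le B hc
  have ho : 0 < orderOf c := (isOfFinOrder_of_finite c).orderOf_pos
  obtain ⟨m, hm⟩ := hev (orderOf c) (pow_orderOf_eq_one c)
  have hzz : c ^ m * c ^ m = 1 := by rw [← pow_add, ← hm, pow_orderOf_eq_one]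
  have hz1 : c ^ m ≠ 1 := by
    intro h
    have h1 := orderOf_dvd_of_pow_eq_one h
    have h3 := Nat.le_of_dvd (by omega) h1
    omega
  have hz : c ^ m ∈ Om B := (Om B).pow_mem hc m
  have hgz : Gn B y 2 (c ^ m) := hgn.pow hcs.1 m
  have hfz : Fx F (c ^ m) := by
    obtain ⟨U, hU, hUf⟩ := hfx
    refine ⟨U, hU, fun u hu => ?_⟩
    clear hzz hz1 hz hgz hm
    induction m with
    | zero => rfl
    | succ n ih => rw [pow_succ, Equiv.Perm.mul_apply, hUf u hu, ih]
  obtain ⟨k, hk, a, ha, hsq, hza⟩ := iv B h2 hB _ hz hzz hz1 hfz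
  have key : Bk B y k := by
    intro b hb hbs
    obtain ⟨a', ha', hn', hfl'⟩ := nrm B h2 hB k a ha hsq
    obtain ⟨b', hb', hnb', hflb'⟩ := nrm B h2 hB k b hb hbs
    have hk7 : k + 3 ≤ finrank F V := by rcases hk with rfl | rfl <;> omega
    obtain ⟨g, hg, hgab⟩ := wt B h2 hB k a' b' ha' hb' (fun i => by rw [hn', hnb']) hk7
    have e1 : (fun i => g (a' i)) = b' := funext hgab
    have h4 := fl_conj (Om_le B hg) ha'
    rw [e1, hflb', hfl', ← hza] at h4
    rw [← h4]
    exact hgz.conj hg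
  rcases hk with rfl | rfl
  · exact Or.inl key
  · exact Or.inr key

end Pool.Agent.ORT
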