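import Pool.Agent.helper22.GS.SpecT

/-!
# Project ort (MP_561ff4_al): conjugate generation in orthogonal groups, odd characteristic. Definitions and basic lemmas.

The ambient group is `Equiv.Perm V`. For a symmetric nondegenerate form `B` (`GS.Sym B`) the subgroup `GS.SpG B` of all linear maps preserving `B` is the
orthogonal group `O(B)`; `Om B` is its commutator subgroup. We write `N(v) = B v v`.
-/

set_option autoImplicit false

namespace Pool.Agent.ORT

open Module Pool.Agent.GS

open scoped BigOperators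

noncomputable section

variable {F V : Type} [Field F] [AddCommGroup V] [Module F V]

/-- The commutator subgroup of the orthogonal group. -/
def Om (B : LinearMap.BilinForm F V) : Subgroup (Equiv.Perm V) := ⁅SpG B, SpG B⁆

theorem Om_le (B : LinearMap.BilinForm F V) : Om B ≤ SpG B := Subgroup.commutator_le_self _

/-- `g h g⁻¹ ∈ Om B` for `g ∈ O(B)`, `h ∈ Om B`. -/
theorem Om_conj {B : LinearMap.BilinForm F V} {g h : Equiv.Perm V} (hg : g ∈ SpG B)
    (hh : h ∈ Om B) : g * h * g⁻¹ ∈ Om B := by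
  have h1 : g * h * g⁻¹ * h⁻¹ ∈ Om B := Subgroup.commutator_mem_commutator hg (Om_le B hh)
  have h2 := (Om B).mul_mem h1 hh
  rwa [inv_mul_cancel_right] at h2

open Classical in
/-- The reflection `x ↦ x - (2 B(x,a) / B(a,a)) a` (if `B a a ≠ 0`). -/
def rf (B : LinearMap.BilinForm F V) (a : V) : Equiv.Perm V :=
  if h : B a a ≠ 0 then
    { toFun := fun x => x - (2 * B x a / B a a) • a
      invFun := fun x => x - (2 * B x a / B a a) • a
      left_inv := by
        intro x
        simp only [map_sub, LinearMap.sub_apply, map_smul, LinearMap.smul_apply, smul_eq_mul]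
        rw [sub_sub, ← add_smul]
        have e : 2 * (B x) a / (B a) a + 2 * ((B x) a - 2 * (B x) a / (B a) a * (B a) a) / (B a) a
            = 0 := by
          field_simp
          ring
        rw [e, zero_smul, sub_zero]
      right_inv := by
        intro x
        simp only [map_sub, LinearMap.sub_apply, map_smul, LinearMap.smul_apply, smul_eq_mul]
        rw [sub_sub, ← add_smul]
        have e : 2 * (B x) a / (B a) a + 2 * ((B x) a - 2 * (B x) a / (B a) a * (B a) a) / (B a) a
            = 0 := by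
          field_simp
          ring
        rw [e, zero_smul, sub_zero] }
  else 1

theorem rf_apply {B : LinearMap.BilinForm F V} {a : V} (h : B a a ≠ 0) (x : V) :
    rf B a x = x - (2 * B x a / B a a) • a := by
  unfold rf
  rw [dif_pos h]
  rfl

theorem rf_self {B : LinearMap.BilinForm F V} {a : V} (h : B a a ≠ 0) : rf B a a = -a := by
  rw [rf_apply h, mul_div_assoc, div_self h, mul_one, two_smul]
  abel

theorem rf_of_orth {B : LinearMap.BilinForm F V} {a x : V} (h : B a a ≠ 0) (hx : B x a = 0) :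
    rf B a x = x := by
  rw [rf_apply h, hx, mul_zero, zero_div, zero_smul, sub_zero]

theorem rf_sq {B : LinearMap.BilinForm F V} (a : V) : rf B a * rf B a = 1 := by
  by_cases h : B a a ≠ 0
  · ext x
    rw [Equiv.Perm.mul_apply, rf_apply h, rf_apply h, map_sub, LinearMap.sub_apply, map_smul,
      LinearMap.smul_apply, smul_eq_mul, sub_sub, ← add_smul]
    have e : 2 * (B x) a / (B a) a + 2 * ((B x) a - 2 * (B x) a / (B a) a * (B a) a) / (B a) a
        = 0 := by
      field_simp
      ring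
    rw [e, zero_smul, sub_zero]
    rfl
  · unfold rf
    rw [dif_neg h, one_mul]

theorem rf_inv {B : LinearMap.BilinForm F V} (a : V) : (rf B a)⁻¹ = rf B a :=
  inv_eq_of_mul_eq_one_left (rf_sq a)

theorem rf_mem {B : LinearMap.BilinForm F V} (hB : Sym B) (a : V) : rf B a ∈ SpG B := by
  by_cases h : B a a ≠ 0
  · refine ⟨⟨fun x y => ?_, fun c x => ?_⟩, fun x y => ?_⟩
    · rw [rf_apply h, rf_apply h, rf_apply h, map_add, LinearMap.add_apply, mul_add, add_div,
        add_smul]
      abel
    · rw [rf_apply h, rf_apply h, map_smul, LinearMap.smul_apply, smul_sub, smul_smul, smul_eq_mul]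
      congr 2
      ring
    · rw [rf_apply h, rf_apply h]
      simp only [map_sub, LinearMap.sub_apply, map_smul, LinearMap.smul_apply, smul_eq_mul]
      rw [hB.symm a y]
      field_simp
      ring
  · unfold rf
    rw [dif_neg h]
    exact (SpG B).one_mem

theorem rf_conj {B : LinearMap.BilinForm F V} {y : Equiv.Perm V} {ψ : F ≃+* F} {ν : F}
    (hy : Sim B y ψ ν) (a : V) : y * rf B a * y⁻¹ = rf B (y a) := by
  have h0 : B (y a) (y a) = ν * ψ (B a a) := hy.form a a
  by_cases h : B a a ≠ 0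
  · have h' : B (y a) (y a) ≠ 0 := by
      rw [h0]
      exact mul_ne_zero hy.ne ((map_ne_zero ψ).2 h)
    ext x
    have h1 : B x (y a) = ν * ψ (B (y⁻¹ x) a) := by rw [← hy.form, pinv]
    have h2 : y (y⁻¹ x - (2 * B (y⁻¹ x) a / B a a) • a) =
        y (y⁻¹ x) - y ((2 * B (y⁻¹ x) a / B a a) • a) := by
      rw [eq_sub_iff_add_eq, ← hy.add, sub_add_cancel]
    rw [Equiv.Perm.mul_apply, Equiv.Perm.mul_apply, rf_apply h, rf_apply h', h2, hy.smul, pinv, h1,
      h0]
    congr 2
    have := hy.ne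
    have h3 : ψ (B a a) ≠ 0 := (map_ne_zero ψ).2 h
    rw [map_div₀, map_mul, map_ofNat]
    field_simp
  · have h' : ¬ B (y a) (y a) ≠ 0 := by
      rw [h0, not_not]
      rw [not_not] at h
      rw [h, map_zero, mul_zero]
    unfold rf
    rw [dif_neg h, dif_neg h', mul_one, mul_inv_cancel]

/-- Elements of `O(B)` are semisimilarities with `ψ = 1`, `ν = 1`. -/
theorem Sim_of_mem {B : LinearMap.BilinForm F V} {g : Equiv.Perm V} (hg : g ∈ SpG B) :
    Sim B g (RingEquiv.refl F) 1 :=
  ⟨one_ne_zero, hg.1.1, fun c v => hg.1.2 c v, fun u v => by rw [hg.2, one_mul]; rfl⟩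

theorem rf_conj_sp {B : LinearMap.BilinForm F V} {g : Equiv.Perm V} (hg : g ∈ SpG B) (a : V) :
    g * rf B a * g⁻¹ = rf B (g a) :=
  rf_conj (Sim_of_mem hg) a

theorem rf_smul {B : LinearMap.BilinForm F V} {c : F} (hc : c ≠ 0) (a : V) :
    rf B (c • a) = rf B a := by
  by_cases h : B a a ≠ 0
  · have h' : B (c • a) (c • a) ≠ 0 := by
      simp only [map_smul, LinearMap.smul_apply, smul_eq_mul]
      exact mul_ne_zero hc (mul_ne_zero hc h)
    ext x
    rw [rf_apply h, rf_apply h']
    simp only [map_smul, LinearMap.smul_apply, smul_eq_mul, smul_smul]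
    congr 2
    field_simp
  · have h' : ¬ B (c • a) (c • a) ≠ 0 := by
      rw [not_not] at h ⊢
      simp only [map_smul, LinearMap.smul_apply, smul_eq_mul, h, mul_zero]
    unfold rf
    rw [dif_neg h, dif_neg h']

theorem rf_comm {B : LinearMap.BilinForm F V} (hB : Sym B) {a b : V} (h : B a b = 0) :
    rf B a * rf B b = rf B b * rf B a := by
  have h' : B b a = 0 := by rw [hB.symm, h]
  by_cases ha : B a a ≠ 0
  · by_cases hb : B b b ≠ 0
    · ext x
      rw [Equiv.Perm.mul_apply, Equiv.Perm.mul_apply, rf_apply ha, rf_apply hb, rf_apply ha,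
        rf_apply hb]
      simp only [map_sub, LinearMap.sub_apply, map_smul, LinearMap.smul_apply, smul_eq_mul, h, h',
        mul_zero, sub_zero]
      abel
    · unfold rf
      rw [dif_neg hb, one_mul, mul_one]
  · unfold rf
    rw [dif_neg ha, one_mul, mul_one]

open Classical in
/-- The Siegel transformation `x ↦ x + B(x,u) d - B(x,d) u - (B(d,d)/2) B(x,u) u` (`u` singular, `d ⊥ u`). -/
def sg (B : LinearMap.BilinForm F V) (u d : V) : Equiv.Perm V :=
  if h : (2 : F) ≠ 0 ∧ B u u = 0 ∧ B u d = 0 ∧ B d u = 0 then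
    { toFun := fun x => x + B x u • d - B x d • u - (B d d / 2 * B x u) • u
      invFun := fun x => x - B x u • d + B x d • u - (B d d / 2 * B x u) • u
      left_inv := by
        intro x
        obtain ⟨h2, h1, h3, h4⟩ := h
        simp only [map_sub, map_add, LinearMap.sub_apply, LinearMap.add_apply, map_smul,
          LinearMap.smul_apply, smul_eq_mul, h1, h3, h4, mul_zero, sub_zero, add_zero]
        match_scalars <;> field_simp <;> ring
      right_inv := by
        intro x
        obtain ⟨h2, h1, h3, h4⟩ := h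
        simp only [map_sub, map_add, LinearMap.sub_apply, LinearMap.add_apply, map_smul,
          LinearMap.smul_apply, smul_eq_mul, h1, h3, h4, mul_zero, sub_zero, add_zero]
        match_scalars <;> field_simp <;> ring }
  else 1

theorem sg_apply {B : LinearMap.BilinForm F V} (hB : Sym B) (h2 : (2 : F) ≠ 0) {u d : V}
    (hu : B u u = 0) (hd : B u d = 0) (x : V) :
    sg B u d x = x + B x u • d - B x d • u - (B d d / 2 * B x u) • u := by
  unfold sg
  rw [dif_pos ⟨h2, hu, hd, by rw [hB.symm, hd]⟩]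
  rfl

theorem sg_mem {B : LinearMap.BilinForm F V} (hB : Sym B) (u d : V) : sg B u d ∈ SpG B := by
  by_cases h : (2 : F) ≠ 0 ∧ B u u = 0 ∧ B u d = 0 ∧ B d u = 0
  · obtain ⟨h2, h1, h3, h4⟩ := h
    refine ⟨⟨fun x y => ?_, fun c x => ?_⟩, fun x y => ?_⟩
    · rw [sg_apply hB h2 h1 h3, sg_apply hB h2 h1 h3, sg_apply hB h2 h1 h3]
      simp only [map_add, LinearMap.add_apply]
      match_scalars <;> ring
    · rw [sg_apply hB h2 h1 h3, sg_apply hB h2 h1 h3]
      simp only [map_smul, LinearMap.smul_apply, smul_eq_mul]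
      match_scalars <;> ring
    · rw [sg_apply hB h2 h1 h3, sg_apply hB h2 h1 h3]
      simp only [map_sub, map_add, LinearMap.sub_apply, LinearMap.add_apply, map_smul,
        LinearMap.smul_apply, smul_eq_mul, h1, h3, h4, mul_zero, sub_zero, add_zero]
      rw [hB.symm u y, hB.symm d y]
      field_simp
      ring
  · unfold sg
    rw [dif_neg h]
    exact (SpG B).one_mem

/-- Conjugation of a Siegel transformation by a semisimilarity. -/
theorem sg_conj {B : LinearMap.BilinForm F V} (hB : Sym B) (h2 : (2 : F) ≠ 0) {y : Equiv.Perm V}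
    {ψ : F ≃+* F} {ν : F} (hy : Sim B y ψ ν) {u d : V} (hu : B u u = 0) (hd : B u d = 0) :
    y * sg B u d * y⁻¹ = sg B (y u) (ν⁻¹ • y d) := by
  have hu' : B (y u) (y u) = 0 := by rw [hy.form, hu, map_zero, mul_zero]
  have hd' : B (y u) (ν⁻¹ • y d) = 0 := by
    rw [map_smul, hy.form, hd, map_zero, mul_zero, smul_zero]
  ext x
  rw [Equiv.Perm.mul_apply, Equiv.Perm.mul_apply, sg_apply hB h2 hu hd, sg_apply hB h2 hu' hd']
  have hsub : ∀ a b : V, y (a - b) = y a - y b := fun a b => by
    rw [eq_sub_iff_add_eq, ← hy.add, sub_add_cancel]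
  rw [hsub, hsub, hy.add, hy.smul, hy.smul, hy.smul, pinv]
  have h1 : B x (y u) = ν * ψ (B (y⁻¹ x) u) := by rw [← hy.form, pinv]
  have h3 : B x (y d) = ν * ψ (B (y⁻¹ x) d) := by rw [← hy.form, pinv]
  have h4 : B (y d) (y d) = ν * ψ (B d d) := hy.form d d
  have hν := hy.ne
  simp only [map_smul, LinearMap.smul_apply, smul_eq_mul, h1, h3, h4, map_mul, map_div₀,
    map_ofNat]
  match_scalars <;> field_simp

theorem sg_conj_sp {B : LinearMap.BilinForm F V} (hB : Sym B) (h2 : (2 : F) ≠ 0) {g : Equiv.Perm V}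
    (hg : g ∈ SpG B) {u d : V} (hu : B u u = 0) (hd : B u d = 0) :
    g * sg B u d * g⁻¹ = sg B (g u) (g d) := by
  rw [sg_conj hB h2 (Sim_of_mem hg) hu hd, inv_one, one_smul]

theorem sg_zero {B : LinearMap.BilinForm F V} (hB : Sym B) (h2 : (2 : F) ≠ 0) {u : V}
    (hu : B u u = 0) : sg B u 0 = 1 := by
  ext x
  rw [sg_apply hB h2 hu (map_zero _)]
  simp

theorem sg_add {B : LinearMap.BilinForm F V} (hB : Sym B) (h2 : (2 : F) ≠ 0) {u d e : V}
    (hu : B u u = 0) (hd : B u d = 0) (he : B u e = 0) :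
    sg B u d * sg B u e = sg B u (d + e) := by
  have hde : B u (d + e) = 0 := by rw [map_add, hd, he, add_zero]
  have hd' : B d u = 0 := by rw [hB.symm, hd]
  have he' : B e u = 0 := by rw [hB.symm, he]
  ext x
  rw [Equiv.Perm.mul_apply, sg_apply hB h2 hu he, sg_apply hB h2 hu hd, sg_apply hB h2 hu hde]
  simp only [map_sub, map_add, LinearMap.sub_apply, LinearMap.add_apply, map_smul,
    LinearMap.smul_apply, smul_eq_mul, hu, hd, he, hd', he', mul_zero, sub_zero, add_zero]
  rw [hB.symm e d]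
  match_scalars <;> field_simp
  ring

theorem sg_inv {B : LinearMap.BilinForm F V} (hB : Sym B) (h2 : (2 : F) ≠ 0) {u d : V}
    (hu : B u u = 0) (hd : B u d = 0) : (sg B u d)⁻¹ = sg B u (-d) := by
  have hd' : B u (-d) = 0 := by rw [map_neg, hd, neg_zero]
  rw [inv_eq_iff_mul_eq_one, sg_add hB h2 hu hd hd', add_neg_cancel, sg_zero hB h2 hu]

/-- `a` is an orthogonal family of nonsingular vectors. -/
structure Og {ι : Type} (B : LinearMap.BilinForm F V) (a : ι → V) : Prop where
  o : ∀ i j, i ≠ j → B (a i) (a j) = 0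
  n : ∀ i, B (a i) (a i) ≠ 0

theorem fl_aux {ι : Type} [Fintype ι] {B : LinearMap.BilinForm F V} {a : ι → V} (h : Og B a)
    (x : V) : x - ∑ i, (2 * B x (a i) / B (a i) (a i)) • a i -
      ∑ i, (2 * B (x - ∑ i, (2 * B x (a i) / B (a i) (a i)) • a i) (a i) /
        B (a i) (a i)) • a i = x := by
  have hk : ∀ j, B (∑ i, (2 * B x (a i) / B (a i) (a i)) • a i) (a j) = 2 * B x (a j) := by
    intro j
    rw [map_sum, LinearMap.sum_apply, Finset.sum_eq_single j]
    · rw [map_smul, LinearMap.smul_apply, smul_eq_mul, div_mul_cancel₀ _ (h.n j)]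
    · intro i _ hij
      rw [map_smul, LinearMap.smul_apply, h.o i j hij, smul_zero]
    · intro hj
      exact absurd (Finset.mem_univ j) hj
  have e : ∀ i, (2 * B (x - ∑ i, (2 * B x (a i) / B (a i) (a i)) • a i) (a i) /
      B (a i) (a i)) • a i = -((2 * B x (a i) / B (a i) (a i)) • a i) := by
    intro i
    rw [map_sub, LinearMap.sub_apply, hk i, ← neg_smul]
    congr 1
    ring
  rw [Finset.sum_congr rfl fun i _ => e i, Finset.sum_neg_distrib]
  abel

open Classical in
/-- The involution `-1` on the span of the orthogonal family `a`, `+1` on its orthogonal complement. -/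
def fl {ι : Type} [Fintype ι] (B : LinearMap.BilinForm F V) (a : ι → V) : Equiv.Perm V :=
  if h : Og B a then
    { toFun := fun x => x - ∑ i, (2 * B x (a i) / B (a i) (a i)) • a i
      invFun := fun x => x - ∑ i, (2 * B x (a i) / B (a i) (a i)) • a i
      left_inv := fun x => fl_aux h x
      right_inv := fun x => fl_aux h x }
  else 1

theorem fl_apply {ι : Type} [Fintype ι] {B : LinearMap.BilinForm F V} {a : ι → V} (h : Og B a)
    (x : V) : fl B a x = x - ∑ i, (2 * B x (a i) / B (a i) (a i)) • a i := by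
  unfold fl
  rw [dif_pos h]
  rfl

theorem fl_sq {ι : Type} [Fintype ι] {B : LinearMap.BilinForm F V} (a : ι → V) :
    fl B a * fl B a = 1 := by
  by_cases h : Og B a
  · ext x
    rw [Equiv.Perm.mul_apply, fl_apply h, fl_apply h]
    exact fl_aux h x
  · unfold fl
    rw [dif_neg h, one_mul]

theorem fl_inv {ι : Type} [Fintype ι] {B : LinearMap.BilinForm F V} (a : ι → V) :
    (fl B a)⁻¹ = fl B a :=
  inv_eq_of_mul_eq_one_left (fl_sq a)

theorem fl_of_orth {ι : Type} [Fintype ι] {B : LinearMap.BilinForm F V} {a : ι → V} (h : Og B a)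
    {x : V} (hx : ∀ i, B x (a i) = 0) : fl B a x = x := by
  rw [fl_apply h, Finset.sum_eq_zero, sub_zero]
  intro i _
  rw [hx i, mul_zero, zero_div, zero_smul]

theorem fl_self {ι : Type} [Fintype ι] {B : LinearMap.BilinForm F V} {a : ι → V} (h : Og B a)
    (i : ι) : fl B a (a i) = -a i := by
  rw [fl_apply h, Finset.sum_eq_single i]
  · rw [mul_div_assoc, div_self (h.n i), mul_one, two_smul]
    abel
  · intro j _ hj
    rw [h.o i j (Ne.symm hj), mul_zero, zero_div, zero_smul]
  · intro hj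
    exact absurd (Finset.mem_univ i) hj

theorem fl_mem {ι : Type} [Fintype ι] {B : LinearMap.BilinForm F V} (hB : Sym B) (a : ι → V) :
    fl B a ∈ SpG B := by
  by_cases h : Og B a
  · have hl : Lin F (fl B a) := by
      refine ⟨fun x y => ?_, fun c x => ?_⟩
      · rw [fl_apply h, fl_apply h, fl_apply h]
        have e : ∑ i, (2 * B (x + y) (a i) / B (a i) (a i)) • a i =
            ∑ i, (2 * B x (a i) / B (a i) (a i)) • a i +
              ∑ i, (2 * B y (a i) / B (a i) (a i)) • a i := by
          rw [← Finset.sum_add_distrib]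
          refine Finset.sum_congr rfl fun i _ => ?_
          rw [map_add, LinearMap.add_apply, mul_add, add_div, add_smul]
        rw [e]
        abel
      · rw [fl_apply h, fl_apply h, smul_sub, Finset.smul_sum]
        congr 1
        refine Finset.sum_congr rfl fun i _ => ?_
        rw [map_smul, LinearMap.smul_apply, smul_smul, smul_eq_mul]
        congr 1
        ring
    refine ⟨hl, fun x y => ?_⟩
    have hk : ∀ x j, B (fl B a x) (a j) = - B x (a j) := by
      intro x j
      rw [fl_apply h, map_sub, LinearMap.sub_apply, map_sum, LinearMap.sum_apply,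
        Finset.sum_eq_single j]
      · rw [map_smul, LinearMap.smul_apply, smul_eq_mul, div_mul_cancel₀ _ (h.n j)]
        ring
      · intro i _ hij
        rw [map_smul, LinearMap.smul_apply, h.o i j hij, smul_zero]
      · intro hj
        exact absurd (Finset.mem_univ j) hj
    rw [fl_apply h y, map_sub, map_sum]
    have e1 : ∑ i, B (fl B a x) ((2 * B y (a i) / B (a i) (a i)) • a i) =
        - ∑ i, (2 * B y (a i) / B (a i) (a i)) * B x (a i) := by
      rw [← Finset.sum_neg_distrib]
      refine Finset.sum_congr rfl fun i _ => ?_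
      rw [map_smul, smul_eq_mul, hk x i]
      ring
    have e2 : B (fl B a x) y = B x y - ∑ i, (2 * B x (a i) / B (a i) (a i)) * B (a i) y := by
      rw [fl_apply h, map_sub, LinearMap.sub_apply, map_sum, LinearMap.sum_apply]
      congr 1
      refine Finset.sum_congr rfl fun i _ => ?_
      rw [map_smul, LinearMap.smul_apply, smul_eq_mul]
    rw [e1, e2, sub_neg_eq_add, sub_add, sub_eq_self, sub_eq_zero]
    refine Finset.sum_congr rfl fun i _ => ?_
    rw [hB.symm (a i) y]
    have := h.n i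
    field_simp
  · unfold fl
    rw [dif_neg h]
    exact (SpG B).one_mem

theorem Og.sim {ι : Type} {B : LinearMap.BilinForm F V} {y : Equiv.Perm V} {ψ : F ≃+* F} {ν : F}
    (hy : Sim B y ψ ν) {a : ι → V} (h : Og B a) : Og B (fun i => y (a i)) :=
  ⟨fun i j hij => by rw [hy.form, h.o i j hij, map_zero, mul_zero],
    fun i => by rw [hy.form]; exact mul_ne_zero hy.ne ((map_ne_zero ψ).2 (h.n i))⟩

theorem Og.mem {ι : Type} {B : LinearMap.BilinForm F V} {g : Equiv.Perm V} (hg : g ∈ SpG B)
    {a : ι → V} (h : Og B a) : Og B (fun i => g (a i)) := h.sim (Sim_of_mem hg)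

/-- Conjugation of `fl` by an isometry. -/
theorem fl_conj {ι : Type} [Fintype ι] {B : LinearMap.BilinForm F V} {g : Equiv.Perm V}
    (hg : g ∈ SpG B) {a : ι → V} (h : Og B a) :
    g * fl B a * g⁻¹ = fl B (fun i => g (a i)) := by
  ext x
  have hs : ∀ (s : Finset ι) (f : ι → V), g (∑ i ∈ s, f i) = ∑ i ∈ s, g (f i) := by
    intro s f
    let L : V →ₗ[F] V := { toFun := g, map_add' := hg.1.1, map_smul' := hg.1.2 }
    exact map_sum L f s
  have hsub : ∀ a b : V, g (a - b) = g a - g b := fun a b => by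
    rw [eq_sub_iff_add_eq, ← hg.1.1, sub_add_cancel]
  rw [Equiv.Perm.mul_apply, Equiv.Perm.mul_apply, fl_apply h, fl_apply (h.mem hg), hsub, hs, pinv]
  congr 1
  refine Finset.sum_congr rfl fun i _ => ?_
  rw [hg.1.2, hg.2]
  congr 3
  rw [← hg.2, pinv]

theorem Og.comp {ι κ : Type} {B : LinearMap.BilinForm F V} {a : ι → V} (h : Og B a) {e : κ → ι}
    (he : Function.Injective e) : Og B (fun i => a (e i)) :=
  ⟨fun i j hij => h.o _ _ fun h' => hij (he h'), fun i => h.n _⟩

theorem Og.inl {ι κ : Type} {B : LinearMap.BilinForm F V} {a : ι → V} {b : κ → V}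
    (h : Og B (Sum.elim a b)) : Og B a := h.comp Sum.inl_injective

theorem Og.inr {ι κ : Type} {B : LinearMap.BilinForm F V} {a : ι → V} {b : κ → V}
    (h : Og B (Sum.elim a b)) : Og B b := h.comp Sum.inr_injective

/-- Gluing orthogonal families. -/
theorem Og.sum {ι κ : Type} {B : LinearMap.BilinForm F V} (hB : Sym B) {a : ι → V} {b : κ → V}
    (ha : Og B a) (hb : Og B b) (hab : ∀ i j, B (a i) (b j) = 0) : Og B (Sum.elim a b) := by
  refine ⟨?_, ?_⟩
  · rintro (i | i) (j | j) hij
    · exact ha.o i j fun h => hij (by rw [h])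
    · exact hab i j
    · show B (b i) (a j) = 0
      rw [hB.symm]
      exact hab j i
    · exact hb.o i j fun h => hij (by rw [h])
  · rintro (i | i)
    · exact ha.n i
    · exact hb.n i

theorem fl_equiv {ι κ : Type} [Fintype ι] [Fintype κ] {B : LinearMap.BilinForm F V} {a : ι → V}
    (h : Og B a) (e : κ ≃ ι) : fl B (fun i => a (e i)) = fl B a := by
  ext x
  rw [fl_apply h, fl_apply (h.comp e.injective)]
  congr 1
  exact Equiv.sum_comp e fun i => (2 * B x (a i) / B (a i) (a i)) • a i

theorem fl_sum {ι κ : Type} [Fintype ι] [Fintype κ] {B : LinearMap.BilinForm F V}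
    {a : ι → V} {b : κ → V} (h : Og B (Sum.elim a b)) :
    fl B (Sum.elim a b) = fl B a * fl B b := by
  ext x
  rw [Equiv.Perm.mul_apply, fl_apply h, fl_apply h.inl, fl_apply h.inr, Fintype.sum_sum_type]
  simp only [Sum.elim_inl, Sum.elim_inr]
  have e : ∀ i, B (x - ∑ j, (2 * B x (b j) / B (b j) (b j)) • b j) (a i) = B x (a i) := by
    intro i
    rw [map_sub, LinearMap.sub_apply, map_sum, LinearMap.sum_apply, Finset.sum_eq_zero, sub_zero]
    intro j _
    rw [map_smul, LinearMap.smul_apply]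
    have : B (b j) (a i) = 0 := h.o (Sum.inr j) (Sum.inl i) (by simp)
    rw [this, smul_zero]
  simp only [e]
  abel

theorem fl_comm {ι κ : Type} [Fintype ι] [Fintype κ] {B : LinearMap.BilinForm F V}
    {a : ι → V} {b : κ → V} (h : Og B (Sum.elim a b)) :
    fl B a * fl B b = fl B b * fl B a := by
  have h' : Og B (Sum.elim b a) := by
    have e : (Sum.elim b a : κ ⊕ ι → V) = fun i => Sum.elim a b (Equiv.sumComm κ ι i) := by
      ext i
      rcases i with i | i <;> rfl
    rw [e]
    exact h.comp (Equiv.sumComm κ ι).injective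
  rw [← fl_sum h, ← fl_sum h', ← fl_equiv h (Equiv.sumComm κ ι)]
  congr 1
  ext i
  rcases i with i | i <;> rfl

theorem fl_unique {ι : Type} [Unique ι] {B : LinearMap.BilinForm F V} {a : ι → V}
    (h : Og B a) : fl B a = rf B (a default) := by
  ext x
  rw [fl_apply h, rf_apply (h.n default), Fintype.sum_unique]

/-- The action of the orthogonal group on the vectors of norm `c`. -/
def actX (B : LinearMap.BilinForm F V) (c : F) : SpG B →* Equiv.Perm {v : V // B v v = c} where
  toFun g :=
    { toFun := fun v => ⟨(g : Equiv.Perm V) v, by rw [g.2.2]; exact v.2⟩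
      invFun := fun v => ⟨(g : Equiv.Perm V)⁻¹ v, by rw [((SpG B).inv_mem g.2).2]; exact v.2⟩
      left_inv := fun v => Subtype.ext (invp _ _)
      right_inv := fun v => Subtype.ext (pinv _ _) }
  map_one' := by
    ext v
    rfl
  map_mul' := by
    intro g h
    ext v
    rfl

/-! ### Generation by conjugates under `Om B` -/

/-- `z` is, up to a scalar, in the group generated by `k` conjugates of `y` under `Om B`. -/
def Gn (B : LinearMap.BilinForm F V) (y : Equiv.Perm V) (k : ℕ) (z : Equiv.Perm V) : Prop :=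
  ∃ g : Fin k → Equiv.Perm V, (∀ i, g i ∈ Om B) ∧ ∃ c : Fˣ,
    sc V c * z ∈ Subgroup.closure (Set.range fun i => g i * y * (g i)⁻¹)

theorem Gn.mul {B : LinearMap.BilinForm F V} {y : Equiv.Perm V} {k l : ℕ} {z w : Equiv.Perm V}
    (hz : Gn B y k z) (hw : Gn B y l w) (hzl : Lin F z) :
    Gn B y (k + l) (z * w) := by
  obtain ⟨g, hg, c, hc⟩ := hz
  obtain ⟨g', hg', c', hc'⟩ := hw
  refine ⟨Fin.append g g', ?_, c * c', ?_⟩
  · intro i
    refine Fin.addCases (fun i => ?_) (fun i => ?_) i
    · rw [Fin.append_left]; exact hg i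
    · rw [Fin.append_right]; exact hg' i
  · have e : sc V (c * c') * (z * w) = (sc V c * z) * (sc V c' * w) := by
      rw [sc_mul, mul_assoc, mul_assoc, ← mul_assoc (sc V c') z w, ← sc_comm hzl, mul_assoc]
    rw [e]
    refine Subgroup.mul_mem _ (Subgroup.closure_mono ?_ hc) (Subgroup.closure_mono ?_ hc')
    · rintro _ ⟨i, rfl⟩
      exact ⟨Fin.castAdd l i, by simp only [Fin.append_left]⟩
    · rintro _ ⟨i, rfl⟩
      exact ⟨Fin.natAdd k i, by simp only [Fin.append_right]⟩

theorem Gn.mono {B : LinearMap.BilinForm F V} {y : Equiv.Perm V} {k l : ℕ} {z : Equiv.Perm V}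
    (hz : Gn B y k z) (h : k ≤ l) : Gn B y l z := by
  obtain ⟨g, hg, c, hc⟩ := hz
  refine ⟨fun i => if hi : (i : ℕ) < k then g ⟨i, hi⟩ else 1, ?_, c, Subgroup.closure_mono ?_ hc⟩
  · intro i
    by_cases hi : (i : ℕ) < k
    · simp only [hi, dif_pos]; exact hg _
    · simp only [hi, dif_neg, not_false_iff]; exact (Om B).one_mem
  · rintro _ ⟨i, rfl⟩
    refine ⟨⟨i, lt_of_lt_of_le i.2 h⟩, ?_⟩
    simp only [i.2, dif_pos]

theorem Gn.one {B : LinearMap.BilinForm F V} {y : Equiv.Perm V} (k : ℕ) : Gn B y k 1 :=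
  ⟨fun _ => 1, fun _ => (Om B).one_mem, 1, by rw [sc_one, one_mul]; exact Subgroup.one_mem _⟩

/-- Conjugating by `Om B`. -/
theorem Gn.conj {B : LinearMap.BilinForm F V} {y : Equiv.Perm V} {k : ℕ} {z : Equiv.Perm V}
    (hz : Gn B y k z) {h : Equiv.Perm V} (hh : h ∈ Om B) : Gn B y k (h * z * h⁻¹) := by
  obtain ⟨g, hg, c, hc⟩ := hz
  refine ⟨fun i => h * g i, fun i => (Om B).mul_mem hh (hg i), c, ?_⟩
  have e : sc V c * (h * z * h⁻¹) = MulAut.conj h (sc V c * z) := by
    rw [MulAut.conj_apply, ← mul_assoc, ← mul_assoc, ← mul_assoc, sc_comm (Om_le B hh).1]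
  rw [e]
  have h1 : MulAut.conj h (sc V c * z) ∈
      (Subgroup.closure (Set.range fun i => g i * y * (g i)⁻¹)).map (MulAut.conj h).toMonoidHom :=
    Subgroup.mem_map_of_mem (MulAut.conj h).toMonoidHom hc
  rw [MonoidHom.map_closure] at h1
  refine Subgroup.closure_mono ?_ h1
  rintro _ ⟨_, ⟨i, rfl⟩, rfl⟩
  refine ⟨i, ?_⟩
  change h * g i * y * (h * g i)⁻¹ = h * (g i * y * (g i)⁻¹) * h⁻¹
  group

/-- The commutator of `y` and `t` is generated by two conjugates of `y`. -/
theorem Gn.comm {B : LinearMap.BilinForm F V} {y t : Equiv.Perm V} (ht : t ∈ Om B) :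
    Gn B y 2 (y * t * y⁻¹ * t⁻¹) := by
  refine ⟨![1, t], ?_, 1, ?_⟩
  · intro i
    fin_cases i
    · exact (Om B).one_mem
    · exact ht
  · rw [sc_one, one_mul]
    have e : y * t * y⁻¹ * t⁻¹ = (1 * y * 1⁻¹) * (t * y * t⁻¹)⁻¹ := by group
    rw [e]
    have h0 : (1 * y * 1⁻¹) ∈ Set.range fun i : Fin 2 =>
        (![1, t] : Fin 2 → Equiv.Perm V) i * y * ((![1, t] : Fin 2 → Equiv.Perm V) i)⁻¹ := ⟨0, rfl⟩
    have h1 : (t * y * t⁻¹) ∈ Set.range fun i : Fin 2 =>
        (![1, t] : Fin 2 → Equiv.Perm V) i * y * ((![1, t] : Fin 2 → Equiv.Perm V) i)⁻¹ := ⟨1, rfl⟩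
    exact Subgroup.mul_mem _ (Subgroup.subset_closure h0)
      (Subgroup.inv_mem _ (Subgroup.subset_closure h1))

/-- Powers of `z`. -/
theorem Gn.pow {B : LinearMap.BilinForm F V} {y : Equiv.Perm V} {k : ℕ} {z : Equiv.Perm V}
    (hz : Gn B y k z) (hzl : Lin F z) (j : ℕ) : Gn B y k (z ^ j) := by
  obtain ⟨g, hg, c, hc⟩ := hz
  refine ⟨g, hg, c ^ j, ?_⟩
  have e : sc V (c ^ j) * z ^ j = (sc V c * z) ^ j := by
    have h1 : Commute (sc V c) z := (sc_comm hzl c).symm
    rw [h1.mul_pow]
    congr 1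
    exact map_pow (MulAction.toPermHom Fˣ V) c j
  rw [e]
  exact Subgroup.pow_mem _ hc j

/-- Powers of `y`. -/
theorem Gn.of_pow {B : LinearMap.BilinForm F V} {y : Equiv.Perm V} {k : ℕ} {z : Equiv.Perm V}
    (j : ℕ) (hz : Gn B (y ^ j) k z) : Gn B y k z := by
  obtain ⟨g, hg, c, hc⟩ := hz
  refine ⟨g, hg, c, ?_⟩
  have : Subgroup.closure (Set.range fun i => g i * y ^ j * (g i)⁻¹) ≤
      Subgroup.closure (Set.range fun i => g i * y * (g i)⁻¹) := by
    rw [Subgroup.closure_le]
    rintro _ ⟨i, rfl⟩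
    have : g i * y ^ j * (g i)⁻¹ = (g i * y * (g i)⁻¹) ^ j := by
      rw [conj_pow]
    simp only [this]
    exact Subgroup.pow_mem _ (Subgroup.subset_closure (Set.mem_range_self i)) j
  exact this hc

/-! ### Further definitions -/

/-- All involutions `fl B a`, `a` an orthogonal family of `k` vectors with square discriminant, are generated by two conjugates of `y`. -/
def Bk (B : LinearMap.BilinForm F V) (y : Equiv.Perm V) (k : ℕ) : Prop :=
  ∀ a : Fin k → V, Og B a → IsSquare (∏ i, B (a i) (a i)) → Gn B y 2 (fl B a)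

/-- Matrices of determinant one and trace `T` have order divisible by `r`. -/
def Dr (r : ℕ) {F : Type} [Field F] (T : F) : Prop :=
  ∀ M : Matrix (Fin 2) (Fin 2) F, M.det = 1 → M.trace = T → ∀ j : ℕ, M ^ j = 1 → r ∣ j

/-- `c` acts on a plane with determinant one and trace `T`. -/
def Pl {F V : Type} [Field F] [AddCommGroup V] [Module F V] (c : Equiv.Perm V) (T : F) : Prop :=
  ∃ (e₁ e₂ : V) (M : Matrix (Fin 2) (Fin 2) F), LinearIndependent F ![e₁, e₂] ∧ M.det = 1 ∧
    M.trace = T ∧ c e₁ = M 0 0 • e₁ + M 1 0 • e₂ ∧ c e₂ = M 0 1 • e₁ + M 1 1 • e₂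

/-- `c` is the identity on a subspace of codimension at most four. -/
def Fx (F : Type) {V : Type} [Field F] [AddCommGroup V] [Module F V] (c : Equiv.Perm V) : Prop :=
  ∃ U : Submodule F V, finrank F V ≤ finrank F U + 4 ∧ ∀ u ∈ U, c u = u

/-- A commutator of `y` with an element of `Om B` has small rank and acts on a plane with determinant one and trace `T`. -/
def Cm (B : LinearMap.BilinForm F V) (y : Equiv.Perm V) (T : F) : Prop :=
  ∃ t ∈ Om B, Pl (y * t * y⁻¹ * t⁻¹) T ∧ Fx F (y * t * y⁻¹ * t⁻¹)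

/-- The data attached to an element `k` of order `r`: a finite field `K` over `F` and a linear map `j : K → V`. -/
structure Dat {K : Type} [Field K] [Algebra F K] (B : LinearMap.BilinForm F V) (k : Equiv.Perm V)
    (β σ : K) (j : K →ₗ[F] V) : Prop where
  b0 : β ≠ 0
  s0 : σ ≠ 0
  s4 : σ ^ 2 ≠ 4
  s : ∀ c, k (j c) + k⁻¹ (j c) = j (σ * c)
  f1 : ∀ c c', B (j c) (j c') = Algebra.trace F K (β * c * c')
  f2 : ∀ c c', 2 * B (k (j c)) (j c') = Algebra.trace F K (β * σ * c * c')
  fx : ∀ c, k (j c) = j c → c = 0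

/-- The projective group `PΩ(B)`. -/
abbrev POm (B : LinearMap.BilinForm F V) : Type := Om B ⧸ Subgroup.center (Om B)

/-- The automorphism `x` of `PΩ(B)` is induced by a semisimilarity `y`. -/
def IsPGammaO (B : LinearMap.BilinForm F V) (x : MulAut (POm B)) : Prop :=
  ∃ (y : Equiv.Perm V) (ψ : F ≃+* F) (ν : F), Sim B y ψ ν ∧
    ∀ g h : Om B, (h : Equiv.Perm V) = y * g * y⁻¹ →
      x (QuotientGroup.mk g) = QuotientGroup.mk h

end

end Pool.Agent.ORT
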