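import Pool.Agent.helper53.ORT.Spec

set_option autoImplicit false

namespace Pool.Agent.ORT

open Module Pool.Agent.GS

theorem IV (snp : SNP_stmt) (obs : OBS_stmt) : IV_stmt := by
  intro F V _ _ _ _ _ B h2 hB z hz hzz hz1 hfx
  have h20 : (2 : F) ≠ 0 := Ring.two_ne_zero h2
  have hzs := Om_le B hz
  have hzV : ∀ v, z (z v) = v := by
    intro v
    have := congrArg (fun f : Equiv.Perm V => f v) hzz
    exact this
  have hzneg : ∀ v, z (-v) = - z v := by
    intro v
    have := hzs.1.2 (-1) v
    rw [neg_one_smul, neg_one_smul] at this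
    exact this
  have hzsub : ∀ a b : V, z (a - b) = z a - z b := fun a b => by
    rw [sub_eq_add_neg, hzs.1.1, hzneg, sub_eq_add_neg]
  -- the subspace H
  let H : Submodule F V :=
    { carrier := {v | z v = -v}
      add_mem' := by
        intro a b ha hb
        change z (a + b) = -(a + b)
        rw [hzs.1.1, ha, hb]
        abel
      zero_mem' := by
        change z 0 = -0
        have := hzs.1.2 0 0
        rw [zero_smul, zero_smul] at this
        rw [this, neg_zero]
      smul_mem' := by
        intro c a ha
        change z (c • a) = -(c • a)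
        rw [hzs.1.2, ha, smul_neg] }
  have hHmem : ∀ v, v ∈ H ↔ z v = -v := fun v => Iff.rfl
  -- decomposition
  have hdec : ∀ v, v - z v ∈ H := by
    intro v
    rw [hHmem, hzsub, hzV, neg_sub]
  have horth : ∀ h u, h ∈ H → z u = u → B h u = 0 := by
    intro h u hh hu
    have h1 : B (z h) (z u) = B h u := hzs.2 h u
    rw [(hHmem h).1 hh, hu, map_neg, LinearMap.neg_apply] at h1
    have h3 : 2 * B h u = 0 := by linear_combination -h1
    exact (mul_eq_zero.1 h3).resolve_left h20
  have hfixplus : ∀ v, z (v + z v) = v + z v := by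
    intro v
    rw [hzs.1.1, hzV, add_comm]
  have hhalf : ∀ v : V, v = (2⁻¹ : F) • (v - z v) + (2⁻¹ : F) • (v + z v) := by
    intro v
    rw [← smul_add]
    have : v - z v + (v + z v) = (2 : F) • v := by rw [two_smul]; abel
    rw [this, smul_smul, inv_mul_cancel₀ h20, one_smul]
  have hnd : ∀ x ∈ H, (∀ y ∈ H, B x y = 0) → x = 0 := by
    intro x hx hxy
    apply hB.2 x
    intro y
    rw [hhalf y, map_add, map_smul, map_smul, hxy _ (hdec y), horth x _ hx (hfixplus y),
      smul_zero, add_zero]
  obtain ⟨a, ha, hspan⟩ := obs B h2 hB H hnd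
  have hzfl : z = fl B a := by
    ext v
    have h3 : ∀ w, w ∈ H → fl B a w = - w := by
      intro w hw
      rw [← hspan] at hw
      refine Submodule.span_induction ?_ ?_ ?_ ?_ hw
      · rintro _ ⟨i, rfl⟩
        exact fl_self ha i
      · have := (fl_mem hB a).1.2 0 0
        rw [zero_smul, zero_smul] at this
        rw [this, neg_zero]
      · intro p q _ _ hp hq
        rw [(fl_mem hB a).1.1, hp, hq]
        abel
      · intro c p _ hp
        rw [(fl_mem hB a).1.2, hp, smul_neg]
    have h4 : fl B a (v + z v) = v + z v := by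
      apply fl_of_orth ha
      intro i
      rw [hB.symm]
      apply horth _ _ _ (hfixplus v)
      rw [← hspan]
      exact Submodule.subset_span (Set.mem_range_self i)
    have h5 : fl B a v = z v := by
      conv_lhs => rw [hhalf v]
      rw [(fl_mem hB a).1.1, (fl_mem hB a).1.2, (fl_mem hB a).1.2, h4, h3 _ (hdec v), ← smul_add]
      have : -(v - z v) + (v + z v) = (2 : F) • z v := by rw [two_smul]; abel
      rw [this, smul_smul, inv_mul_cancel₀ h20, one_smul]
    exact h5.symm
  have hfl : fl B a ∈ Om B := hzfl ▸ hz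
  obtain ⟨hev, hsq⟩ := snp B h2 hB _ a ha hfl
  -- dimension
  obtain ⟨U, hU, hUf⟩ := hfx
  have hdisj : Disjoint H U := by
    rw [Submodule.disjoint_def]
    intro x hx hxU
    have h6 := hUf x hxU
    rw [(hHmem x).1 hx] at h6
    have h7 : (2 : F) • x = 0 := by
      rw [two_smul]
      nth_rewrite 1 [← h6]
      abel
    exact (smul_eq_zero.1 h7).resolve_left h20
  have hle : finrank F H ≤ 4 := by
    have h8 := Submodule.finrank_add_finrank_le_of_disjoint hdisj
    omega
  have hne : finrank F H ≠ 0 := by
    intro h0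
    apply hz1
    have hH0 : H = ⊥ := Submodule.finrank_eq_zero.1 h0
    ext v
    have := hdec v
    rw [hH0, Submodule.mem_bot, sub_eq_zero] at this
    exact this.symm
  refine ⟨finrank F H, ?_, a, ha, hsq, hzfl⟩
  obtain ⟨m, hm⟩ := hev
  omega

end Pool.Agent.ORT
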