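import Pool.Agent.helper53.ORT.Spec

set_option autoImplicit false

namespace Pool.Agent.ORT

open Module Pool.Agent.GS

theorem URG (un : GS.UN_stmt) : URG_stmt := by
  intro F V _ _ _ _ _ B h2 hB k l a x ha hn c hc
  have hrefl : B.IsRefl := fun u v h => by rw [hB.symm]; exact h
  have hnd : B.Nondegenerate :=
    ⟨fun u hu => hB.nd u hu, fun u hu => hB.nd u fun v => by rw [hB.symm]; exact hu v⟩
  set A : Submodule F V := Submodule.span F (Set.range a) with hA
  set S : Submodule F V := Submodule.span F (Set.range a ∪ Set.range x) with hS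
  have hAS : A ≤ S := Submodule.span_mono Set.subset_union_left
  set D : Submodule F V := B.orthogonal S with hD
  have hDS : B.orthogonal D = S := LinearMap.BilinForm.orthogonal_orthogonal hnd hrefl S
  have hDmem : ∀ w, w ∈ D ↔ ∀ s ∈ S, B s w = 0 := fun w => Iff.rfl
  have hSmem : ∀ w, w ∈ S ↔ ∀ d ∈ D, B d w = 0 := fun w => by rw [← hDS]; rfl
  -- dimension of S
  have hSdim : finrank F S ≤ k + l := by
    have h1 : S = Submodule.span F (Set.range (Sum.elim a x)) := by
      rw [Set.Sum.elim_range]
    have h3 : finrank F (Submodule.span F (Set.range (Sum.elim a x))) ≤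
        Fintype.card (Fin k ⊕ Fin l) := finrank_range_le_card _
    rw [← h1, Fintype.card_sum, Fintype.card_fin, Fintype.card_fin] at h3
    exact h3
  have hli : LinearIndependent F a := by
    rw [Fintype.linearIndependent_iff]
    intro g hg i
    have h1 : B (∑ j, g j • a j) (a i) = 0 := by rw [hg, map_zero, LinearMap.zero_apply]
    rw [map_sum, LinearMap.sum_apply, Finset.sum_eq_single i] at h1
    · rw [map_smul, LinearMap.smul_apply, smul_eq_mul] at h1
      exact (mul_eq_zero.1 h1).resolve_right (ha.n i)
    · intro j _ hj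
      rw [map_smul, LinearMap.smul_apply, ha.o j i hj, smul_zero]
    · intro h
      exact absurd (Finset.mem_univ i) h
  have hAdim : finrank F A = k := by
    rw [hA, finrank_span_eq_card hli, Fintype.card_fin]
  have hDdim : finrank F D = finrank F V - finrank F S :=
    LinearMap.BilinForm.finrank_orthogonal hnd S
  -- radical of D
  set R : Submodule F V := D ⊓ S with hR
  have hdisj : Disjoint A R := by
    rw [Submodule.disjoint_def]
    intro w hw hwR
    have h1 : ∀ i, B (a i) w = 0 := fun i =>
      (hDmem w).1 hwR.1 (a i) (Submodule.subset_span (Set.mem_union_left _ ⟨i, rfl⟩))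
    rw [hA, Submodule.mem_span_range_iff_exists_fun] at hw
    obtain ⟨g, rfl⟩ := hw
    have h3 : ∀ i, g i = 0 := by
      intro i
      have h4 := h1 i
      rw [map_sum, Finset.sum_eq_single i] at h4
      · rw [map_smul, smul_eq_mul] at h4
        exact (mul_eq_zero.1 h4).resolve_right (ha.n i)
      · intro j _ hj
        rw [map_smul, ha.o i j (Ne.symm hj), smul_zero]
      · intro h
        exact absurd (Finset.mem_univ i) h
    exact Finset.sum_eq_zero fun i _ => by rw [h3 i, zero_smul]
  have hRdim : finrank F R ≤ l := by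
    have h1 : A ⊔ R ≤ S := sup_le hAS inf_le_right
    have h3 := Submodule.finrank_mono h1
    have h4 := Submodule.finrank_sup_add_finrank_inf_eq A R
    rw [hdisj.eq_bot, finrank_bot, add_zero] at h4
    omega
  obtain ⟨C, hC⟩ := exists_isCompl R
  set W : Submodule F V := C ⊓ D with hW
  have hRW : R ⊔ W = D := by
    rw [hW, ← sup_inf_assoc_of_le C (inf_le_left : R ≤ D), hC.sup_eq_top, top_inf_eq]
  have hWdim : 2 ≤ finrank F W := by
    have h1 := Submodule.finrank_add_le_finrank_add_finrank R W
    rw [hRW] at h1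
    omega
  let b : LinearMap.BilinForm F W := B.restrict W
  have hb : ∀ u v : W, b u v = B u v := fun u v => rfl
  have hbS : Sym b := by
    refine ⟨fun u v => ?_, fun u hu => ?_⟩
    · rw [hb, hb, hB.symm]
    · have h1 : ∀ d ∈ D, B d u = 0 := by
        intro d hd
        rw [← hRW] at hd
        obtain ⟨r, hr, w, hw, rfl⟩ := Submodule.mem_sup.1 hd
        have h3 : B r u = 0 := (hDmem u).1 u.2.2 r hr.2
        have h4 : B w u = 0 := by
          rw [hB.symm]
          exact hu ⟨w, hw⟩
        rw [map_add, LinearMap.add_apply, h3, h4, add_zero]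
      have h3 : (u : V) ∈ S := (hSmem u).2 h1
      have h4 : (u : V) ∈ R ⊓ C := ⟨⟨u.2.2, h3⟩, u.2.1⟩
      rw [hC.inf_eq_bot, Submodule.mem_bot] at h4
      exact Subtype.ext h4
  obtain ⟨w, hw⟩ := un b h2 hbS hWdim c hc
  refine ⟨w, fun i => ?_, fun j => ?_, ?_⟩
  · rw [hB.symm]
    exact (hDmem w).1 w.2.2 (a i) (Submodule.subset_span (Set.mem_union_left _ ⟨i, rfl⟩))
  · rw [hB.symm]
    exact (hDmem w).1 w.2.2 (x j) (Submodule.subset_span (Set.mem_union_right _ ⟨j, rfl⟩))
  · rw [← hb]
    exact hw

end Pool.Agent.ORT
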