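import Pool.Agent.helper22.GS.Final
import Pool.Agent.helper35.ORT.RO
import Pool.Agent.helper79.ORT.SGO
import Pool.Agent.helper4.ORT.FLS
import Pool.Agent.helper21.ORT.WA
import Pool.Agent.helper96.ORT.WB
import Pool.Agent.helper53.ORT.URG
import Pool.Agent.helper42.ORT.WT
import Pool.Agent.helper83.ORT.SGA
import Pool.Agent.helper74.ORT.SNP
import Pool.Agent.helper82.ORT.OBS
import Pool.Agent.helper53.ORT.IV
import Pool.Agent.helper18.ORT.NRM
import Pool.Agent.helper53.ORT.BKB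
import Pool.Agent.helper52.ORT.NOM
import Pool.Agent.helper46.ORT.CM2
import Pool.Agent.helper99.ORT.CM3
import Pool.Agent.helper16.ORT.DM
import Pool.Agent.helper20.ORT.EV0
import Pool.Agent.helper16.ORT.TRC
import Pool.Agent.helper9.ORT.TRN
import Pool.Agent.helper56.ORT.QZ
import Pool.Agent.helper72.ORT.ZN
import Pool.Agent.helper79.ORT.NQ
import Pool.Agent.helper25.ORT.SE
import Pool.Agent.helper19.ORT.QD
import Pool.Agent.helper91.ORT.LIN
import Pool.Agent.helper16.ORT.DSO1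
import Pool.Agent.helper10.ORT.DSO
import Pool.Agent.helper49.ORT.SMT
import Pool.Agent.helper84.ORT.NRX
import Pool.Agent.helper12.ORT.SLR
import Pool.Agent.helper52.ORT.UPN
import Pool.Agent.helper50.ORT.CW2
import Pool.Agent.helper55.ORT.SGU
import Pool.Agent.helper34.ORT.PPA
import Pool.Agent.helper41.ORT.PPB
import Pool.Agent.helper51.ORT.PPS
import Pool.Agent.helper61.ORT.KDA
import Pool.Agent.helper44.ORT.KDP
import Pool.Agent.helper5.ORT.KDT
import Pool.Agent.helper36.ORT.KDB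
import Pool.Agent.helper40.ORT.KJ
import Pool.Agent.helper45.ORT.D1
import Pool.Agent.helper38.ORT.KH
import Pool.Agent.helper31.ORT.KX
import Pool.Agent.helper67.ORT.E1
import Pool.Agent.helper55.ORT.E2
import Pool.Agent.helper69.ORT.E3
import Pool.Agent.helper2.ORT.E4
import Pool.Agent.helper27.ORT.E5
import Pool.Agent.helper87.ORT.E7
import Pool.Agent.helper54.ORT.E6
import Pool.Agent.helper37.ORT.EB
import Pool.Agent.helper64.ORT.PRP
import Pool.Agent.helper53.ORT.MNP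
import Pool.Agent.helper73.ORT.MN
import Pool.Agent.helper32.ORT.CNO
import Pool.Agent.helper76.ORT.FG
import Pool.Agent.helper37.ORT.PRO
import Pool.Agent.helper71.ORT.LRB
import Pool.Agent.helper70.ORT.FRO
import Pool.Agent.helper39.ORT.FIN

set_option autoImplicit false

namespace Pool.Agent.ORT

theorem fin_RO : RO_stmt := RO

theorem fin_SGO : SGO_stmt := SGO fin_RO

theorem fin_FLS : FLS_stmt := FLS

theorem fin_WA : WA_stmt := WA

theorem fin_WB : WB_stmt := WB fin_RO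

theorem fin_URG : URG_stmt := URG GS.fin_UN

theorem fin_WT : WT_stmt := WT fin_WA fin_WB fin_URG

theorem fin_SGA : SGA_stmt := SGA

theorem fin_SNP : SNP_stmt := SNP fin_SGA

theorem fin_OBS : OBS_stmt := OBS

theorem fin_IV : IV_stmt := IV fin_SNP fin_OBS

theorem fin_NRM : NRM_stmt := NRM fin_FLS GS.fin_DG

theorem fin_BKB : BKB_stmt := BKB fin_IV fin_NRM fin_WT

theorem fin_NOM : NOM_stmt := NOM

theorem fin_CM2 : CM2_stmt := CM2 fin_BKB fin_NOM

theorem fin_CM3 : CM3_stmt := CM3 fin_NOM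

theorem fin_DM : DM_stmt := DM

theorem fin_EV0 : EV0_stmt := EV0 GS.fin_EF

theorem fin_TRC : TRC_stmt := TRC fin_EV0 GS.fin_H1

theorem fin_TRN : TRN_stmt := TRN fin_TRC

theorem fin_QZ : QZ_stmt := QZ GS.fin_CW

theorem fin_ZN : ZN_stmt := ZN fin_QZ

theorem fin_NQ : NQ_stmt := NQ fin_URG fin_RO

theorem fin_SE : SE_stmt := SE GS.fin_CW

theorem fin_QD : QD_stmt := QD fin_SE fin_SGO

theorem fin_LIN : LIN_stmt := LIN fin_ZN fin_NQ fin_QD fin_TRC fin_TRN fin_DM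

theorem fin_DSO1 : DSO1_stmt := DSO1 GS.fin_DS2

theorem fin_DSO : DSO_stmt := DSO GS.fin_DS1 GS.fin_DS2 fin_DSO1

theorem fin_SMT : SMT_stmt := SMT fin_SGO

theorem fin_NRX : NRX_stmt := NRX GS.fin_DS1

theorem fin_SLR : SLR_stmt := SLR fin_DSO fin_SMT fin_NRX fin_TRC fin_DM

theorem fin_UPN : UPN_stmt := UPN

theorem fin_CW2 : CW2_stmt := CW2

theorem fin_SGU : SGU_stmt := SGU

theorem fin_PPA : PPA_stmt := PPA fin_SGO fin_SGU

theorem fin_PPB : PPB_stmt := PPB fin_SGO fin_SGU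

theorem fin_PPS : PPS_stmt := PPS fin_SGO fin_SGU

theorem fin_KDA : KDA_stmt := KDA

theorem fin_KDP : KDP_stmt := KDP

theorem fin_KDT : KDT_stmt := KDT

theorem fin_KDB : KDB_stmt := KDB fin_KDA fin_KDP fin_KDT GS.fin_BF

theorem fin_KJ : KJ_stmt := KJ GS.fin_BF

theorem fin_D1 : D1_stmt := D1 fin_KJ GS.fin_DG GS.fin_DD GS.fin_BF

theorem fin_KH : KH_stmt := KH GS.fin_BF

theorem fin_KX : KX_stmt := KX fin_OBS GS.fin_BF

theorem fin_E1 : E1_stmt := E1

theorem fin_E2 : E2_stmt := E2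

theorem fin_E3 : E3_stmt := E3 fin_URG

theorem fin_E4 : E4_stmt := E4 fin_D1 fin_KH fin_KX fin_E1 fin_E2 fin_E3

theorem fin_E5 : E5_stmt := E5 fin_D1 fin_KH fin_KX fin_E1 fin_E2 fin_E3

theorem fin_E7 : E7_stmt := E7 GS.fin_UN GS.fin_Q5 GS.fin_Q3 GS.fin_HW GS.fin_BF

theorem fin_E6 : E6_stmt := E6 fin_E7 fin_E1 fin_KH fin_FLS GS.fin_DG GS.fin_BF

theorem fin_EB : EB_stmt := EB fin_KDB fin_E4 fin_E5 fin_E6

theorem fin_PRP : PRP_stmt := PRP fin_CW2 fin_PPA fin_PPB fin_PPS fin_DSO fin_UPN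

theorem fin_MNP : MNP_stmt := MNP fin_PRP fin_LIN fin_SLR fin_CM2 fin_CM3 fin_EB

theorem fin_MN : MN_stmt := MN fin_MNP GS.fin_PO

theorem fin_CNO : CNO_stmt := CNO fin_RO fin_URG fin_OBS

theorem fin_FG : FG_stmt := FG fin_CNO fin_NOM GS.fin_AD

theorem fin_PRO : PRO_stmt := PRO

theorem fin_LRB : LRB_stmt := LRB

theorem fin_FRO : FRO_stmt := FRO fin_CNO fin_NOM fin_LRB fin_URG GS.fin_AD

theorem fin_FIN : FIN_stmt := FIN fin_MN fin_FG fin_PRO fin_FRO GS.fin_BE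

end Pool.Agent.ORT
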