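import Pool.Agent.helper53.ORT.Spec

set_option autoImplicit false

namespace Pool.Agent.ORT

open Module Pool.Agent.GS

theorem MNP_char {F : Type} [Field F] [Finite F] (r : ℕ) (hr : r.Prime) (h : (r : F) = 0) :
    r ∣ Nat.card F := by
  have h1 : ringChar F ∣ r := (ringChar.spec F r).1 h
  have h3 : (ringChar F).Prime := CharP.char_is_prime F (ringChar F)
  have h4 : ringChar F = r := (Nat.prime_dvd_prime_iff_eq h3 hr).1 h1
  haveI := Fintype.ofFinite F
  have h5 : (Nat.card F : F) = 0 := by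
    rw [Nat.card_eq_fintype_card]
    exact Nat.cast_card_eq_zero F
  have h6 := (ringChar.spec F (Nat.card F)).1 h5
  rwa [h4] at h6

theorem MNP (prp : PRP_stmt) (lin : LIN_stmt) (slr : SLR_stmt) (cm2 : CM2_stmt) (cm3 : CM3_stmt)
    (eb : EB_stmt) : MNP_stmt := by
  intro F V _ _ _ _ _ B h2 hB h7 y ψ ν hy hns l κ hl hκ hyl r hr hr2 hk
  obtain ⟨k, hk, hk1, hkr⟩ := hk
  by_cases hq : r ∣ Nat.card F
  · exact prp B h2 hB (by omega) y ψ ν hy hns l κ hl hκ hyl r hr hr2 hq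
  have hr0 : (r : F) ≠ 0 := fun h => hq (MNP_char r hr h)
  -- the two commutators
  have main : (∃ T : F, Dr 2 T ∧ Cm B y T) ∧ (r = 3 → ∃ T : F, Dr 3 T ∧ Cm B y T) := by
    by_cases hψ : ∃ x, ψ x ≠ x
    · obtain ⟨h3, h4⟩ := slr B h2 hB (by omega) y ψ ν hy hψ l κ hl hκ hyl
      refine ⟨h3, fun hr3 => h4 ?_⟩
      intro h5
      apply hr0
      rw [hr3]
      have := (ringChar.spec F 3).2 (by rw [h5])
      exact this
    · push Not at hψ
      have hψ1 : ψ = RingEquiv.refl F := RingEquiv.ext hψ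
      rw [hψ1] at hy
      obtain ⟨h3, h4⟩ := lin B h2 hB (by omega) y ν hy hns
      refine ⟨h3, fun hr3 => h4 3 Nat.prime_three (by norm_num) ?_⟩
      refine ⟨le_refl _, ?_⟩
      rw [hr3] at hq
      have h6 : Nat.card F % 3 = 1 ∨ Nat.card F % 3 = 2 := by omega
      have h7' : Nat.card F ^ (2 * 1) % 3 = 1 := by
        rcases h6 with h6 | h6 <;> norm_num [pow_two, Nat.mul_mod, h6]
      exact (Nat.modEq_iff_dvd' (by
        have : 0 < Nat.card F ^ (2 * 1) := Nat.pow_pos Nat.card_pos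
        omega)).1 h7'.symm
  obtain ⟨⟨T, hT, hcm⟩, h3⟩ := main
  by_cases hr3 : r = 3
  · obtain ⟨T', hT', hcm'⟩ := h3 hr3
    subst hr3
    exact cm3 B h2 hB y ψ ν hy 3 T' hr hr2 hT' hcm'
  · have h5 : 5 ≤ r := by
      have := hr.two_le
      have h4 : r ≠ 4 := by
        rintro rfl
        exact absurd hr (by norm_num)
      omega
    exact eb B h2 hB h7 k (Om_le B hk) r hr h5 hr0 hkr hk1 y (cm2 B h2 hB h7 y ψ ν hy T hT hcm)

end Pool.Agent.ORT
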